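import Mathlib

open Finset

namespace Pool.Agent.R600.QC

section ring
variable {A : Type*} [CommRing A]

def odG (q : A) (N : ℕ) : A := ∏ i ∈ range N, (1 - q ^ (2 * i + 1))
def evG (q : A) (N : ℕ) : A := ∏ i ∈ range N, (1 - q ^ (2 * i + 2))
def alG (q : A) (N : ℕ) : A := ∏ i ∈ range N, (1 - q ^ (i + 1))
def mpG (q : A) (N : ℕ) : A := ∏ i ∈ range N, (1 + q ^ (i + 1))
def coG (q : A) (n k : ℕ) : A := ∏ i ∈ Ico k (n - 1), (1 - q ^ (2 * i + 2))

/-- the numerator polynomial, evaluated at `q` -/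
def PG (q : A) (n : ℕ) : A := ∑ k ∈ range n, (odG q k * q ^ k * mpG q k * coG q n k * evG q (n - 1)
  - q ^ (2 * k) * odG q k ^ 2 * coG q n k ^ 2)

lemma PG_map {B : Type*} [CommRing B] (f : A →+* B) (q : A) (n : ℕ) :
    f (PG q n) = PG (f q) n := by
  simp [PG, odG, evG, mpG, coG, map_sum, map_prod]

lemma evG_map {B : Type*} [CommRing B] (f : A →+* B) (q : A) (n : ℕ) :
    f (evG q n) = evG (f q) n := by
  simp [evG, map_prod]

lemma al_mp (q : A) (k : ℕ) : alG q k * mpG q k = evG q k := by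
  rw [alG, mpG, evG, ← prod_mul_distrib]
  refine prod_congr rfl fun i _ => ?_
  ring

lemma al_two (q : A) (k : ℕ) : alG q (2 * k) = odG q k * evG q k := by
  unfold alG odG evG
  induction k with
  | zero => simp
  | succ k ih =>
    rw [show 2 * (k + 1) = 2 * k + 1 + 1 by ring, prod_range_succ, prod_range_succ, ih,
      prod_range_succ, prod_range_succ]
    ring

lemma ev_co (q : A) {n k : ℕ} (h : k < n) : evG q k * coG q n k = evG q (n - 1) :=
  prod_range_mul_prod_Ico _ (by omega)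

end ring

section field
variable {K : Type*} [Field K]

/-- the `q`-Pochhammer symbol `(a;q)_k = ∏_{j<k} (1 - a q^j)` -/
def qPoch (a q : K) (k : ℕ) : K := ∏ j ∈ range k, (1 - a * q ^ j)

/-- `L_n(q) = ∑_{k<n} [2k, k]_q q^k / (-q;q)_k` with `[2k,k]_q = (q;q)_{2k}/(q;q)_k²` -/
def Lsum (q : K) (n : ℕ) : K :=
  ∑ k ∈ range n, qPoch q q (2 * k) / qPoch q q k ^ 2 * q ^ k / qPoch (-q) q k

/-- `R_n(q) = ∑_{k<n} q^{2k} (q;q²)_k² / (q²;q²)_k²` -/
def Rsum (q : K) (n : ℕ) : K :=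
  ∑ k ∈ range n, q ^ (2 * k) * qPoch q (q ^ 2) k ^ 2 / qPoch (q ^ 2) (q ^ 2) k ^ 2

lemma poch_al (q : K) (k : ℕ) : qPoch q q k = alG q k := by
  refine prod_congr rfl fun i _ => ?_
  ring

lemma poch_mp (q : K) (k : ℕ) : qPoch (-q) q k = mpG q k := by
  refine prod_congr rfl fun i _ => ?_
  ring

lemma poch_od (q : K) (k : ℕ) : qPoch q (q ^ 2) k = odG q k := by
  refine prod_congr rfl fun i _ => ?_
  ring

lemma poch_ev (q : K) (k : ℕ) : qPoch (q ^ 2) (q ^ 2) k = evG q k := by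
  refine prod_congr rfl fun i _ => ?_
  ring

lemma evG_ne {q : K} {N k : ℕ} (hq : ∀ i, 1 ≤ i → i ≤ N → q ^ i ≠ 1) (h : 2 * k ≤ N) :
    evG q k ≠ 0 := by
  refine prod_ne_zero_iff.2 fun i hi => ?_
  rw [mem_range] at hi
  exact sub_ne_zero.2 (hq _ (by omega) (by omega)).symm

lemma alG_ne {q : K} {N k : ℕ} (hq : ∀ i, 1 ≤ i → i ≤ N → q ^ i ≠ 1) (h : k ≤ N) :
    alG q k ≠ 0 := by
  refine prod_ne_zero_iff.2 fun i hi => ?_
  rw [mem_range] at hi
  exact sub_ne_zero.2 (hq _ (by omega) (by omega)).symm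

lemma Lsum_eq {q : K} {n : ℕ} (hq : ∀ i, 1 ≤ i → i ≤ 4 * n → q ^ i ≠ 1) :
    Lsum q n = ∑ k ∈ range n, odG q k * q ^ k / alG q k := by
  refine sum_congr rfl fun k hk => ?_
  rw [mem_range] at hk
  rw [poch_al, poch_al, poch_mp, al_two]
  have h1 : alG q k ≠ 0 := alG_ne hq (by omega)
  have h2 := al_mp q k
  have h3 : evG q k ≠ 0 := evG_ne hq (by omega)
  have h4 : mpG q k ≠ 0 := by
    intro h
    rw [h, mul_zero] at h2
    exact h3 h2.symm
  rw [← h2]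
  field_simp

lemma Rsum_eq (q : K) (n : ℕ) :
    Rsum q n = ∑ k ∈ range n, q ^ (2 * k) * odG q k ^ 2 / evG q k ^ 2 := by
  refine sum_congr rfl fun k hk => ?_
  rw [poch_od, poch_ev]

lemma PG_eq {q : K} {n : ℕ} (hq : ∀ i, 1 ≤ i → i ≤ 4 * n → q ^ i ≠ 1) :
    PG q n = evG q (n - 1) ^ 2 * (Lsum q n - Rsum q n) := by
  rw [Lsum_eq hq, Rsum_eq, mul_sub, mul_sum, mul_sum, ← sum_sub_distrib]
  refine sum_congr rfl fun k hk => ?_
  rw [mem_range] at hk
  have h1 : alG q k ≠ 0 := alG_ne hq (by omega)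
  have h3 : evG q k ≠ 0 := evG_ne hq (by omega)
  have h2 := al_mp q k
  have e1 : evG q (n - 1) ^ 2 * (odG q k * q ^ k / alG q k) =
      odG q k * q ^ k * mpG q k * coG q n k * evG q (n - 1) := by
    rw [sq, ← ev_co q hk, ← h2]
    field_simp
  have e2 : evG q (n - 1) ^ 2 * (q ^ (2 * k) * odG q k ^ 2 / evG q k ^ 2) =
      q ^ (2 * k) * odG q k ^ 2 * coG q n k ^ 2 := by
    rw [← ev_co q hk]
    field_simp
  rw [e1, e2]

end field

end Pool.Agent.R600.QC
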