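import Mathlib

/-!
# Project QC (MP_781342_nt): definitions and exact statements of the pieces

`L_n ≡ R_n (mod Φ_n(q)³)` for all odd `n`.  Proofs of every piece are in `notes.md` here.
-/

open Finset Filter Topology

namespace Pool.Agent.R600.QC

/-- `(q;q²)_N` -/
noncomputable def od (q : ℂ) (N : ℕ) : ℂ := ∏ i ∈ range N, (1 - q ^ (2 * i + 1))

/-- `(q²;q²)_N` -/
noncomputable def ev (q : ℂ) (N : ℕ) : ℂ := ∏ i ∈ range N, (1 - q ^ (2 * i + 2))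

/-- `(q;q)_N` -/
noncomputable def al (q : ℂ) (N : ℕ) : ℂ := ∏ i ∈ range N, (1 - q ^ (i + 1))

/-- terms of the partial fraction form of `L` -/
noncomputable def TL (q : ℂ) (N m : ℕ) : ℂ :=
  od q N * q ^ m / ((1 - q ^ (2 * m + 1)) * ev q m * ev q (N - 1 - m))

/-- terms of the partial fraction form of `R` -/
noncomputable def TR (q : ℂ) (N m : ℕ) : ℂ :=
  od q N ^ 2 * q ^ (2 * m * (m + 1)) * (1 + q ^ (2 * m + 1)) /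
    ((1 - q ^ (2 * m + 1)) * ev q (N - 1 - m) * ev q (N + m))

/-- the second order coefficient of `L` at `ζ` -/
noncomputable def lam (s : ℕ) (ζ : ℂ) : ℂ :=
  -((-1) ^ s * ζ ^ (s * (s + 1))) *
      ∑ j ∈ range s, ζ ^ (2 * j + 2) / (1 - ζ ^ (2 * j + 2)) ^ 2
    - ∑ m ∈ range s, (-1) ^ m * (ζ ^ (m * m))⁻¹ * (1 + ζ ^ (2 * m + 1)) /
        (1 - ζ ^ (2 * m + 1)) ^ 2

/-- the second order coefficient of `R` at `ζ` -/
noncomputable def rho (s : ℕ) (ζ : ℂ) : ℂ :=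
  2 * ((-1) ^ s * ζ ^ (s * (s + 1))) *
      ∑ j ∈ range s, ζ ^ (2 * j + 2) / (1 - ζ ^ (2 * j + 2)) ^ 2
    + ∑ m ∈ range s, (-1) ^ m * ζ ^ (m * (m + 1)) *
        (((s : ℂ) - m) * (1 + ζ ^ (2 * m + 1)) / (1 - ζ ^ (2 * m + 1))
          - 2 * ζ ^ (2 * m + 1) / (1 - ζ ^ (2 * m + 1)) ^ 2)

/-- QC-1a: exact identity for `L`. -/
def S_EL : Prop := ∀ (q : ℂ) (N : ℕ), (∀ i, 1 ≤ i → i ≤ 4 * N → q ^ i ≠ 1) →
  ∑ k ∈ range N, od q k * q ^ k / al q k = ∑ m ∈ range N, TL q N m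

/-- QC-1b: exact identity for `R`. -/
def S_ER : Prop := ∀ (q : ℂ) (N : ℕ), (∀ i, 1 ≤ i → i ≤ 4 * N → q ^ i ≠ 1) →
  ∑ k ∈ range N, q ^ (2 * k) * od q k ^ 2 / ev q k ^ 2 = ∑ m ∈ range N, TR q N m

/-- QC-2: the limit for `L`. -/
def S_LL : Prop := ∀ (s : ℕ) (ζ : ℂ), IsPrimitiveRoot ζ (2 * s + 1) → 1 ≤ s →
  Tendsto (fun q : ℂ => (∑ m ∈ range (2 * s + 1), TL q (2 * s + 1) m
      - (-1) ^ s * q ^ (s * (s + 1))) / (1 - q ^ (2 * s + 1)) ^ 2) (𝓝[≠] ζ) (𝓝 (lam s ζ))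

/-- QC-3: the limit for `R`. -/
def S_RR : Prop := ∀ (s : ℕ) (ζ : ℂ), IsPrimitiveRoot ζ (2 * s + 1) → 1 ≤ s →
  Tendsto (fun q : ℂ => (∑ m ∈ range (2 * s + 1), TR q (2 * s + 1) m
      - (-1) ^ s * q ^ (s * (s + 1))) / (1 - q ^ (2 * s + 1)) ^ 2) (𝓝[≠] ζ) (𝓝 (rho s ζ))

/-- QC-4: the two second order coefficients agree. -/
def S_SP : Prop := ∀ (s : ℕ) (ζ : ℂ), IsPrimitiveRoot ζ (2 * s + 1) → 1 ≤ s →
  lam s ζ = rho s ζ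

end Pool.Agent.R600.QC
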