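import Pool.Agent.R600.QC.Defs

/-! QC-1a: the exact partial fraction identity for `L`. -/

open Finset

namespace Pool.Agent.R600.QC

lemma el_ev_succ (q : ℂ) (N : ℕ) : ev q (N + 1) = ev q N * (1 - q ^ (2 * N + 2)) := by
  unfold ev; rw [prod_range_succ]

lemma el_od_succ (q : ℂ) (N : ℕ) : od q (N + 1) = od q N * (1 - q ^ (2 * N + 1)) := by
  unfold od; rw [prod_range_succ]

lemma el_al_succ (q : ℂ) (N : ℕ) : al q (N + 1) = al q N * (1 - q ^ (N + 1)) := by
  unfold al; rw [prod_range_succ]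

lemma el_one_sub {q : ℂ} {i : ℕ} (h : q ^ i ≠ 1) : 1 - q ^ i ≠ 0 := fun h' =>
  h (sub_eq_zero.mp h').symm

lemma el_ev_ne {q : ℂ} {K : ℕ} (h : ∀ i, 1 ≤ i → i ≤ K → q ^ i ≠ 1) {N : ℕ} (hN : 2 * N ≤ K) :
    ev q N ≠ 0 := by
  unfold ev
  rw [prod_ne_zero_iff]
  intro i hi
  have := mem_range.mp hi
  exact el_one_sub (h _ (by omega) (by omega))

lemma el_al_ne {q : ℂ} {K : ℕ} (h : ∀ i, 1 ≤ i → i ≤ K → q ^ i ≠ 1) {N : ℕ} (hN : N ≤ K) :
    al q N ≠ 0 := by
  unfold al
  rw [prod_ne_zero_iff]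
  intro i hi
  have := mem_range.mp hi
  exact el_one_sub (h _ (by omega) (by omega))

/-- the auxiliary sum -/
noncomputable def elu (q : ℂ) (N : ℕ) : ℂ :=
  ∑ p ∈ antidiagonal N, q ^ p.1 / (ev q p.1 * ev q p.2)

lemma elu_zero (q : ℂ) : elu q 0 = 1 := by
  simp [elu, ev]

/-- first half of the recursion -/
lemma elu_half {q : ℂ} {K : ℕ} (h : ∀ i, 1 ≤ i → i ≤ K → q ^ i ≠ 1) {N : ℕ}
    (hN : 2 * (N + 1) ≤ K) :
    ∑ p ∈ antidiagonal (N + 1), (1 - q ^ (2 * p.1)) * (q ^ p.1 / (ev q p.1 * ev q p.2)) =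
      q * elu q N := by
  rw [Nat.sum_antidiagonal_succ]
  simp only [mul_zero, pow_zero, sub_self, zero_mul, zero_add]
  rw [elu, mul_sum]
  apply sum_congr rfl
  intro p hp
  have hp' := mem_antidiagonal.mp hp
  have h1 : ev q p.1 ≠ 0 := el_ev_ne h (by omega)
  have h2 : ev q p.2 ≠ 0 := el_ev_ne h (by omega)
  have h3 : 1 - q ^ (2 * p.1 + 2) ≠ 0 := el_one_sub (h _ (by omega) (by omega))
  have e : 2 * (p.1 + 1) = 2 * p.1 + 2 := by ring
  rw [el_ev_succ, e]
  field_simp
  ring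

lemma elu_half' {q : ℂ} {K : ℕ} (h : ∀ i, 1 ≤ i → i ≤ K → q ^ i ≠ 1) {N : ℕ}
    (hN : 2 * (N + 1) ≤ K) :
    ∑ p ∈ antidiagonal (N + 1), q ^ (2 * p.1) * (1 - q ^ (2 * p.2)) *
      (q ^ p.1 / (ev q p.1 * ev q p.2)) =
      ∑ p ∈ antidiagonal N, q ^ (2 * p.1) * (q ^ p.1 / (ev q p.1 * ev q p.2)) := by
  rw [Nat.sum_antidiagonal_succ']
  simp only [mul_zero, pow_zero, sub_self, zero_mul, zero_add]
  apply sum_congr rfl
  intro p hp
  have hp' := mem_antidiagonal.mp hp
  have h1 : ev q p.1 ≠ 0 := el_ev_ne h (by omega)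
  have h2 : ev q p.2 ≠ 0 := el_ev_ne h (by omega)
  have h3 : 1 - q ^ (2 * p.2 + 2) ≠ 0 := el_one_sub (h _ (by omega) (by omega))
  have e : 2 * (p.2 + 1) = 2 * p.2 + 2 := by ring
  rw [el_ev_succ, e]
  field_simp

lemma elu_rec {q : ℂ} {K : ℕ} (h : ∀ i, 1 ≤ i → i ≤ K → q ^ i ≠ 1) {N : ℕ}
    (hN : 2 * (N + 1 + 1) ≤ K) :
    (1 - q ^ (2 * (N + 1) + 2)) * elu q (N + 1 + 1) = (1 + q) * elu q (N + 1) - q * elu q N := by
  have h1 := elu_half h (N := N + 1) hN
  have h2 := elu_half' h (N := N + 1) hN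
  have h3 := elu_half h (N := N) (by omega)
  have h4 : (1 - q ^ (2 * (N + 1) + 2)) * elu q (N + 1 + 1) =
      ∑ p ∈ antidiagonal (N + 1 + 1), (1 - q ^ (2 * p.1)) * (q ^ p.1 / (ev q p.1 * ev q p.2)) +
      ∑ p ∈ antidiagonal (N + 1 + 1), q ^ (2 * p.1) * (1 - q ^ (2 * p.2)) *
        (q ^ p.1 / (ev q p.1 * ev q p.2)) := by
    rw [elu, mul_sum, ← sum_add_distrib]
    apply sum_congr rfl
    intro p hp
    have hp' := mem_antidiagonal.mp hp
    have e : q ^ (2 * (N + 1) + 2) = q ^ (2 * p.1) * q ^ (2 * p.2) := by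
      rw [← pow_add]; congr 1; omega
    rw [e]
    ring
  have h5 : ∑ p ∈ antidiagonal (N + 1), (1 - q ^ (2 * p.1)) * (q ^ p.1 / (ev q p.1 * ev q p.2)) =
      elu q (N + 1) - ∑ p ∈ antidiagonal (N + 1), q ^ (2 * p.1) *
        (q ^ p.1 / (ev q p.1 * ev q p.2)) := by
    rw [elu, ← sum_sub_distrib]
    apply sum_congr rfl
    intro p _
    ring
  rw [h4, h1, h2]
  rw [h5] at h3
  linear_combination (-1 : ℂ) * h3

lemma elu_eq {q : ℂ} {K : ℕ} (h : ∀ i, 1 ≤ i → i ≤ K → q ^ i ≠ 1) (N : ℕ) :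
    (2 * N ≤ K → elu q N * al q N = 1) ∧ (2 * (N + 1) ≤ K → elu q (N + 1) * al q (N + 1) = 1) := by
  induction N with
  | zero =>
    refine ⟨fun _ => by simp [elu_zero, al], fun h2 => ?_⟩
    have e := elu_half h (N := 0) h2
    have e' := elu_half' h (N := 0) h2
    have h1 : 1 - q ≠ 0 := by
      have := el_one_sub (h 1 le_rfl (by omega)); simpa using this
    have h12 : 1 - q ^ 2 ≠ 0 := el_one_sub (h 2 (by omega) (by omega))
    have h13 : 1 + q ≠ 0 := by
      intro h0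
      apply h12
      linear_combination (1 - q) * h0
    simp [elu, ev, al, Nat.antidiagonal_succ]
    field_simp
    ring
  | succ N ih =>
    refine ⟨ih.2, fun hN => ?_⟩
    have h1 := ih.1 (by omega)
    have h2 := ih.2 (by omega)
    have h3 := elu_rec h hN
    have hne : 1 - q ^ (2 * (N + 1) + 2) ≠ 0 := el_one_sub (h _ (by omega) (by omega))
    have ha : al q N ≠ 0 := el_al_ne h (by omega)
    have ha' : 1 - q ^ (N + 1) ≠ 0 := el_one_sub (h _ (by omega) (by omega))
    have hb : elu q N = 1 / al q N := by field_simp; exact h1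
    have hc : elu q (N + 1) = 1 / (al q N * (1 - q ^ (N + 1))) := by
      rw [el_al_succ] at h2
      field_simp
      linear_combination h2
    rw [hb, hc] at h3
    have h4 : (1 - q ^ (2 * (N + 1) + 2)) * (elu q (N + 1 + 1) * al q (N + 1 + 1)) =
        (1 - q ^ (2 * (N + 1) + 2)) * 1 := by
      rw [el_al_succ q (N + 1), el_al_succ q N]
      have : (1 - q ^ (2 * (N + 1) + 2)) * (elu q (N + 1 + 1) *
          (al q N * (1 - q ^ (N + 1)) * (1 - q ^ (N + 1 + 1)))) =
          ((1 - q ^ (2 * (N + 1) + 2)) * elu q (N + 1 + 1)) *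
          (al q N * (1 - q ^ (N + 1)) * (1 - q ^ (N + 1 + 1))) := by ring
      rw [this, h3]
      field_simp
      ring
    exact mul_left_cancel₀ hne h4

/-- QC-1a -/
theorem t_EL : S_EL := by
  intro q N
  induction N with
  | zero => intro _; simp
  | succ N ih =>
    intro h
    have hI := ih (fun i h1 h2 => h i h1 (by omega))
    rw [sum_range_succ, hI]
    have hu := (elu_eq h N).1 (by omega)
    have ha : al q N ≠ 0 := el_al_ne h (by omega)
    have hu' : 1 / al q N = elu q N := by field_simp; linear_combination -hu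
    have hstep : ∀ m ∈ range N, TL q (N + 1) m = TL q N m +
        od q N * q ^ N * (q ^ (N - m) / (ev q m * ev q (N - m))) := by
      intro m hm
      have hm' := mem_range.mp hm
      obtain ⟨j, rfl⟩ : ∃ j, N = m + 1 + j := ⟨N - m - 1, by omega⟩
      unfold TL
      have e1 : m + 1 + j + 1 - 1 - m = j + 1 := by omega
      have e2 : m + 1 + j - 1 - m = j := by omega
      have e3 : m + 1 + j - m = j + 1 := by omega
      rw [e1, e2, e3, el_od_succ, el_ev_succ q j]
      have h1 : ev q m ≠ 0 := el_ev_ne h (by omega)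
      have h2 : ev q j ≠ 0 := el_ev_ne h (by omega)
      have h3 : 1 - q ^ (2 * j + 2) ≠ 0 := el_one_sub (h _ (by omega) (by omega))
      have h4 : 1 - q ^ (2 * m + 1) ≠ 0 := el_one_sub (h _ (by omega) (by omega))
      field_simp
      ring
    have hlast : TL q (N + 1) N = od q N * q ^ N * (q ^ (N - N) / (ev q N * ev q (N - N))) := by
      unfold TL
      have e1 : N + 1 - 1 - N = 0 := by omega
      rw [e1, el_od_succ, Nat.sub_self]
      have h1 : ev q N ≠ 0 := el_ev_ne h (by omega)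
      have h4 : 1 - q ^ (2 * N + 1) ≠ 0 := el_one_sub (h _ (by omega) (by omega))
      simp only [ev, range_zero, prod_empty, pow_zero, mul_one]
      change _ = _
      have h1' : (∏ i ∈ range N, (1 - q ^ (2 * i + 2))) ≠ 0 := h1
      field_simp
    rw [sum_range_succ, sum_congr rfl hstep, hlast, sum_add_distrib, add_assoc]
    congr 1
    rw [← mul_sum, ← mul_add, ← sum_range_succ (fun m => q ^ (N - m) / (ev q m * ev q (N - m)))]
    have hr : ∑ m ∈ range (N + 1), q ^ (N - m) / (ev q m * ev q (N - m)) = elu q N := by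
      rw [elu, Nat.sum_antidiagonal_eq_sum_range_succ (fun i j => q ^ i / (ev q i * ev q j)),
        ← sum_range_reflect]
      apply sum_congr rfl
      intro m hm
      have hm' := mem_range.mp hm
      have e1 : N + 1 - 1 - m = N - m := by omega
      have e2 : N - (N - m) = m := by omega
      rw [e1, e2]
      congr 1
      ring
    rw [hr, ← hu']
    ring

end Pool.Agent.R600.QC
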