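import Pool.Agent.R600.QC.Defs

/-! QC-1b: the exact partial fraction identity for `R`. -/

open Finset

namespace Pool.Agent.R600.QC

lemma er_ev_succ (q : ℂ) (N : ℕ) : ev q (N + 1) = ev q N * (1 - q ^ (2 * N + 2)) := by
  unfold ev; rw [prod_range_succ]

lemma er_od_succ (q : ℂ) (N : ℕ) : od q (N + 1) = od q N * (1 - q ^ (2 * N + 1)) := by
  unfold od; rw [prod_range_succ]

lemma er_one_sub {q : ℂ} {i : ℕ} (h : q ^ i ≠ 1) : 1 - q ^ i ≠ 0 := fun h' =>
  h (sub_eq_zero.mp h').symm

lemma er_ev_ne {q : ℂ} {K : ℕ} (h : ∀ i, 1 ≤ i → i ≤ K → q ^ i ≠ 1) {N : ℕ} (hN : 2 * N ≤ K) :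
    ev q N ≠ 0 := by
  unfold ev
  rw [prod_ne_zero_iff]
  intro i hi
  have := mem_range.mp hi
  exact er_one_sub (h _ (by omega) (by omega))

/-- the telescoping function -/
noncomputable def erG (q : ℂ) (N m : ℕ) : ℂ := q ^ (2 * m ^ 2) / (ev q (N - m) * ev q (N + m))

/-- QC-1b -/
theorem t_ER : S_ER := by
  intro q N
  induction N with
  | zero => intro _; simp
  | succ N ih =>
    intro h
    have hI := ih (fun i h1 h2 => h i h1 (by omega))
    rw [sum_range_succ, hI]
    have hstep : ∀ m ∈ range N, TR q (N + 1) m = TR q N m +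
        od q N ^ 2 * q ^ (2 * N) * (erG q N m - erG q N (m + 1)) := by
      intro m hm
      have hm' := mem_range.mp hm
      obtain ⟨j, rfl⟩ : ∃ j, N = m + 1 + j := ⟨N - m - 1, by omega⟩
      unfold TR erG
      have e1 : m + 1 + j + 1 - 1 - m = j + 1 := by omega
      have e2 : m + 1 + j - 1 - m = j := by omega
      have e3 : m + 1 + j - m = j + 1 := by omega
      have e4 : m + 1 + j - (m + 1) = j := by omega
      have e5 : m + 1 + j + 1 + m = (2 * m + 1 + j) + 1 := by omega
      have e6 : m + 1 + j + m = 2 * m + 1 + j := by omega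
      have e7 : m + 1 + j + (m + 1) = (2 * m + 1 + j) + 1 := by omega
      rw [e1, e2, e3, e4, e5, e6, e7, er_od_succ, er_ev_succ q j, er_ev_succ q (2 * m + 1 + j)]
      have h1 : ev q (2 * m + 1 + j) ≠ 0 := er_ev_ne h (by omega)
      have h2 : ev q j ≠ 0 := er_ev_ne h (by omega)
      have h3 : 1 - q ^ (2 * j + 2) ≠ 0 := er_one_sub (h _ (by omega) (by omega))
      have h4 : 1 - q ^ (2 * m + 1) ≠ 0 := er_one_sub (h _ (by omega) (by omega))
      have h5 : 1 - q ^ (2 * (2 * m + 1 + j) + 2) ≠ 0 := er_one_sub (h _ (by omega) (by omega))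
      field_simp
      ring
    have hlast : TR q (N + 1) N = od q N ^ 2 * q ^ (2 * N) * erG q N N := by
      unfold TR erG
      have e1 : N + 1 - 1 - N = 0 := by omega
      have e2 : N + 1 + N = (N + N) + 1 := by omega
      rw [e1, e2, er_od_succ, er_ev_succ q (N + N), Nat.sub_self]
      have h1 : ev q (N + N) ≠ 0 := er_ev_ne h (by omega)
      have h0 : ev q 0 = 1 := by simp [ev]
      have h4 : 1 - q ^ (2 * N + 1) ≠ 0 := er_one_sub (h _ (by omega) (by omega))
      have h5 : 1 - q ^ (2 * (N + N) + 2) ≠ 0 := er_one_sub (h _ (by omega) (by omega))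
      rw [h0]
      field_simp
      ring
    rw [sum_range_succ, sum_congr rfl hstep, hlast, sum_add_distrib, add_assoc]
    congr 1
    rw [← mul_sum, ← mul_add, sum_range_sub']
    have h0 : erG q N 0 = 1 / ev q N ^ 2 := by
      unfold erG
      rw [Nat.sub_zero, add_zero]
      simp [pow_two]
    rw [sub_add_cancel, h0]
    ring

end Pool.Agent.R600.QC
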