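import Pool.Agent.R600.QC.SP
import Pool.Agent.R600.QC.Alg

open Finset Filter Topology

namespace Pool.Agent.R600.QC

/-- `A ≡ B (mod Φ_n(q)^m)` in `ℚ(q)` -/
def CongMod (n m : ℕ) (A B : RatFunc ℚ) : Prop :=
  ∃ P Q : Polynomial ℤ, Polynomial.cyclotomic n ℤ ^ m ∣ P ∧ Q ≠ 0 ∧
    IsRelPrime Q (Polynomial.cyclotomic n ℤ) ∧
    A - B = Polynomial.aeval (RatFunc.X : RatFunc ℚ) P / Polynomial.aeval (RatFunc.X : RatFunc ℚ) Q

/-- in a punctured neighbourhood there are no small roots of unity -/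
lemma evt_ne (ζ : ℂ) (N : ℕ) : ∀ᶠ q : ℂ in 𝓝[≠] ζ, ∀ i, 1 ≤ i → i ≤ N → q ^ i ≠ 1 := by
  have h1 : ∀ i ∈ Finset.Icc 1 N, ∀ᶠ q : ℂ in 𝓝[≠] ζ, q ^ i ≠ 1 := by
    intro i hi
    rw [Finset.mem_Icc] at hi
    have h2 : ∀ w ∈ Polynomial.nthRootsFinset i (1 : ℂ), ∀ᶠ q : ℂ in 𝓝[≠] ζ, q ≠ w := by
      intro w _
      by_cases h : w = ζ
      · subst h
        exact self_mem_nhdsWithin
      · exact (eventually_ne_nhds (Ne.symm h)).filter_mono nhdsWithin_le_nhds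
    filter_upwards [(Filter.eventually_all_finset _).2 h2] with q hq hqi
    exact hq q ((Polynomial.mem_nthRootsFinset (by omega) _).2 hqi) rfl
  filter_upwards [(Filter.eventually_all_finset _).2 h1] with q hq i hi1 hi2
  exact hq i (Finset.mem_Icc.2 ⟨hi1, hi2⟩)

/-- a polynomial that is `o((q-ζ)²)` is divisible by `(X-ζ)³` -/
lemma cube_dvd (p : Polynomial ℂ) (ζ : ℂ)
    (h : Tendsto (fun q : ℂ => p.eval q / (q - ζ) ^ 2) (𝓝[≠] ζ) (𝓝 0)) :
    (Polynomial.X - Polynomial.C ζ) ^ 3 ∣ p := by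
  by_cases hp : p = 0
  · rw [hp]; exact dvd_zero _
  obtain ⟨g, hg, hg0⟩ := Polynomial.exists_eq_pow_rootMultiplicity_mul_and_not_dvd p hp ζ
  set m := p.rootMultiplicity ζ with hm
  by_cases hm3 : 3 ≤ m
  · rw [hg]
    exact Dvd.dvd.mul_right (pow_dvd_pow _ hm3) _
  exfalso
  have hm2 : m ≤ 2 := by omega
  have h1 : Tendsto (fun q : ℂ => p.eval q / (q - ζ) ^ 2 * (q - ζ) ^ (2 - m)) (𝓝[≠] ζ)
      (𝓝 (0 * (ζ - ζ) ^ (2 - m))) := by
    refine h.mul ?_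
    have : Continuous fun q : ℂ => (q - ζ) ^ (2 - m) := by fun_prop
    exact this.continuousAt.tendsto.mono_left nhdsWithin_le_nhds
  have h2 : Tendsto (fun q : ℂ => p.eval q / (q - ζ) ^ 2 * (q - ζ) ^ (2 - m)) (𝓝[≠] ζ)
      (𝓝 (g.eval ζ)) := by
    have h3 : Tendsto (fun q : ℂ => g.eval q) (𝓝[≠] ζ) (𝓝 (g.eval ζ)) :=
      g.continuous.continuousAt.tendsto.mono_left nhdsWithin_le_nhds
    refine h3.congr' ?_
    filter_upwards [self_mem_nhdsWithin] with q hq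
    have hq' : q - ζ ≠ 0 := sub_ne_zero.2 hq
    rw [hg]
    simp only [Polynomial.eval_mul, Polynomial.eval_pow, Polynomial.eval_sub, Polynomial.eval_X,
      Polynomial.eval_C]
    rw [div_mul_eq_mul_div, eq_div_iff (pow_ne_zero _ hq')]
    have : (q - ζ) ^ 2 = (q - ζ) ^ m * (q - ζ) ^ (2 - m) := by
      rw [← pow_add]
      congr 1
      omega
    rw [this]
    ring
  have h4 := tendsto_nhds_unique h1 h2
  rw [zero_mul] at h4
  exact hg0 (Polynomial.dvd_iff_isRoot.2 h4.symm)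

/-- the analytic heart: `P(q) = o((q-ζ)²)`. -/
lemma PG_lim (hEL : S_EL) (hER : S_ER) (hLL : S_LL) (hRR : S_RR) {s : ℕ} (hs : 1 ≤ s) {ζ : ℂ}
    (hζ : IsPrimitiveRoot ζ (2 * s + 1)) :
    Tendsto (fun q : ℂ => PG q (2 * s + 1) / (q - ζ) ^ 2) (𝓝[≠] ζ) (𝓝 0) := by
  have hL := hLL s ζ hζ hs
  have hR := hRR s ζ hζ hs
  rw [← t_SP s ζ hζ hs] at hR
  have hd := hL.sub hR
  rw [sub_self] at hd
  -- (1 - q^n)/(q-ζ)
  have hder : HasDerivAt (fun q : ℂ => 1 - q ^ (2 * s + 1))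
      (-(((2 * s + 1 : ℕ) : ℂ) * ζ ^ (2 * s))) ζ := by
    have := (hasDerivAt_pow (2 * s + 1) ζ).const_sub 1
    simpa using this
  have hsl := hasDerivAt_iff_tendsto_slope.1 hder
  have hev : Tendsto (fun q : ℂ => evG q (2 * s + 1 - 1)) (𝓝[≠] ζ)
      (𝓝 (evG ζ (2 * s + 1 - 1))) := by
    have : Continuous fun q : ℂ => evG q (2 * s + 1 - 1) := by
      unfold evG
      fun_prop
    exact this.continuousAt.tendsto.mono_left nhdsWithin_le_nhds
  have hall := ((hev.pow 2).mul (hsl.pow 2)).mul hd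
  rw [mul_zero] at hall
  refine hall.congr' ?_
  filter_upwards [self_mem_nhdsWithin, evt_ne ζ (4 * (2 * s + 1))] with q hq hq1
  have hq' : q - ζ ≠ 0 := sub_ne_zero.2 hq
  rw [PG_eq hq1, Lsum_eq hq1, Rsum_eq]
  have e1 := hEL q (2 * s + 1) hq1
  have e2 := hER q (2 * s + 1) hq1
  have e1' : ∑ k ∈ range (2 * s + 1), odG q k * q ^ k / alG q k =
    ∑ m ∈ range (2 * s + 1), TL q (2 * s + 1) m := e1
  have e2' : ∑ k ∈ range (2 * s + 1), q ^ (2 * k) * odG q k ^ 2 / evG q k ^ 2 =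
    ∑ m ∈ range (2 * s + 1), TR q (2 * s + 1) m := e2
  rw [e1', e2', slope_def_field, hζ.pow_eq_one]
  have h1 : 1 - q ^ (2 * s + 1) ≠ 0 := sub_ne_zero.2 (hq1 _ (by omega) (by omega)).symm
  field_simp
  ring

lemma eval_PG (q : ℂ) (n : ℕ) :
    ((PG (Polynomial.X : Polynomial ℤ) n).map (Int.castRingHom ℂ)).eval q = PG q n := by
  rw [Polynomial.eval_map]
  have := PG_map (Polynomial.eval₂RingHom (Int.castRingHom ℂ) q) (Polynomial.X : Polynomial ℤ) n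
  simpa using this

theorem cyc_dvd (hEL : S_EL) (hER : S_ER) (hLL : S_LL) (hRR : S_RR) {s : ℕ} (hs : 1 ≤ s) :
    Polynomial.cyclotomic (2 * s + 1) ℤ ^ 3 ∣ PG (Polynomial.X : Polynomial ℤ) (2 * s + 1) := by
  have hζ := Complex.isPrimitiveRoot_exp (2 * s + 1) (by omega)
  rw [← Polynomial.map_dvd_map (Int.castRingHom ℂ) Int.cast_injective
    ((Polynomial.cyclotomic.monic (2 * s + 1) ℤ).pow 3), Polynomial.map_pow,
    Polynomial.map_cyclotomic, Polynomial.cyclotomic_eq_prod_X_sub_primitiveRoots hζ,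
    ← Finset.prod_pow]
  refine Finset.prod_dvd_of_coprime ?_ ?_
  · intro μ _ ν _ hμν
    exact (Polynomial.isCoprime_X_sub_C_of_isUnit_sub (sub_ne_zero.2 hμν).isUnit).pow
  · intro μ hμ
    refine cube_dvd _ _ ?_
    simp only [eval_PG]
    exact PG_lim hEL hER hLL hRR hs (isPrimitiveRoot_of_mem_primitiveRoots hμ)

lemma RX_ne (i : ℕ) (hi : 1 ≤ i) : (RatFunc.X : RatFunc ℚ) ^ i ≠ 1 := by
  intro h
  rw [← RatFunc.algebraMap_X, ← map_pow, ← map_one (algebraMap (Polynomial ℚ) (RatFunc ℚ))] at h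
  have h2 := RatFunc.algebraMap_injective ℚ h
  have h3 := congrArg Polynomial.natDegree h2
  rw [Polynomial.natDegree_X_pow, Polynomial.natDegree_one] at h3
  omega

theorem main_of (hEL : S_EL) (hER : S_ER) (hLL : S_LL) (hRR : S_RR) (n : ℕ) (hn : Odd n) :
    CongMod n 3 (Lsum (RatFunc.X : RatFunc ℚ) n) (Rsum (RatFunc.X : RatFunc ℚ) n) := by
  obtain ⟨s, rfl⟩ := hn
  rcases Nat.eq_zero_or_pos s with rfl | hs
  · refine ⟨0, 1, dvd_zero _, one_ne_zero, isRelPrime_one_left, ?_⟩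
    simp [Lsum, Rsum, qPoch]
  have hζ := Complex.isPrimitiveRoot_exp (2 * s + 1) (by omega)
  set ζ := Complex.exp (2 * Real.pi * Complex.I / ((2 * s + 1 : ℕ) : ℂ)) with hζd
  have hne : evG ζ (2 * s + 1 - 1) ≠ 0 := by
    refine prod_ne_zero_iff.2 fun i hi => ?_
    rw [mem_range] at hi
    have := bne hζ (by omega : 1 ≤ i + 1) (by omega : i + 1 ≤ 2 * s)
    exact sub_ne_zero.2 (Ne.symm this)
  have hndvd : ¬ Polynomial.cyclotomic (2 * s + 1) ℤ ∣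
      (evG (Polynomial.X : Polynomial ℤ) (2 * s + 1 - 1)) ^ 2 := by
    intro hd
    have h1 := map_dvd (Polynomial.eval₂RingHom (Int.castRingHom ℂ) ζ) hd
    rw [map_pow, evG_map] at h1
    have h2 : Polynomial.eval₂RingHom (Int.castRingHom ℂ) ζ
        (Polynomial.cyclotomic (2 * s + 1) ℤ) = 0 := by
      rw [Polynomial.coe_eval₂RingHom, ← Polynomial.eval_map, Polynomial.map_cyclotomic]
      exact hζ.isRoot_cyclotomic (by omega)
    rw [h2, zero_dvd_iff] at h1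
    have h3 := pow_eq_zero_iff (two_ne_zero) |>.1 h1
    rw [Polynomial.coe_eval₂RingHom, Polynomial.eval₂_X] at h3
    exact hne h3
  refine ⟨PG Polynomial.X (2 * s + 1), evG Polynomial.X (2 * s + 1 - 1) ^ 2,
    cyc_dvd hEL hER hLL hRR hs, ?_, ?_, ?_⟩
  · intro h
    exact hndvd (h ▸ dvd_zero _)
  · exact ((Polynomial.cyclotomic.irreducible (by omega)).isRelPrime_iff_not_dvd.2 hndvd).symm
  · have hq : ∀ i, 1 ≤ i → i ≤ 4 * (2 * s + 1) → (RatFunc.X : RatFunc ℚ) ^ i ≠ 1 :=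
      fun i hi _ => RX_ne i hi
    have e1 : Polynomial.aeval (RatFunc.X : RatFunc ℚ) (PG (Polynomial.X : Polynomial ℤ)
        (2 * s + 1)) = PG (RatFunc.X : RatFunc ℚ) (2 * s + 1) := by
      have := PG_map ((Polynomial.aeval (RatFunc.X : RatFunc ℚ) :
        Polynomial ℤ →ₐ[ℤ] RatFunc ℚ) : Polynomial ℤ →+* RatFunc ℚ) Polynomial.X (2 * s + 1)
      simpa using this
    have e2 : Polynomial.aeval (RatFunc.X : RatFunc ℚ) (evG (Polynomial.X : Polynomial ℤ)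
        (2 * s + 1 - 1) ^ 2) = evG (RatFunc.X : RatFunc ℚ) (2 * s + 1 - 1) ^ 2 := by
      have := evG_map ((Polynomial.aeval (RatFunc.X : RatFunc ℚ) :
        Polynomial ℤ →ₐ[ℤ] RatFunc ℚ) : Polynomial ℤ →+* RatFunc ℚ) Polynomial.X (2 * s + 1 - 1)
      rw [map_pow]
      congr 1
      simpa using this
    rw [e1, e2, PG_eq hq, eq_div_iff]
    · ring
    · exact pow_ne_zero _ (evG_ne hq (by omega))

end Pool.Agent.R600.QC
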