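import Pool.Agent.R600.QC.Defs

/-!
# Project QC, piece QC-2: the limit of the `L`-sum at a root of unity.
Also contains the lemmas shared with QC-3.
-/

open Finset Filter Topology

namespace Pool.Agent.R600.QC

/-- Generic product lemma. -/
theorem P_lem {ι : Type*} (l : Filter ℂ) (D : ℂ → ℂ) (hD : Tendsto D l (𝓝 0))
    (hDne : ∀ᶠ q in l, D q ≠ 0) (A E : ι → ℂ → ℂ) (A0 E0 : ι → ℂ) (S : Finset ι)
    (hA : ∀ j ∈ S, Tendsto (A j) l (𝓝 (A0 j))) (hE : ∀ j ∈ S, Tendsto (E j) l (𝓝 (E0 j)))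
    (hA0 : ∀ j ∈ S, A0 j ≠ 0) :
    Tendsto (fun q => (∏ j ∈ S, (A j q + D q * E j q) - ∏ j ∈ S, A j q) / D q) l
      (𝓝 ((∏ j ∈ S, A0 j) * ∑ j ∈ S, E0 j / A0 j)) := by
  classical
  induction S using Finset.induction_on with
  | empty =>
    simp only [prod_empty, sum_empty, sub_self, zero_div, mul_zero]
    exact tendsto_const_nhds
  | insert a S ha ih =>
    have ih' := ih (fun j hj => hA j (mem_insert_of_mem hj))
      (fun j hj => hE j (mem_insert_of_mem hj)) (fun j hj => hA0 j (mem_insert_of_mem hj))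
    have hAa := hA a (mem_insert_self a S)
    have hEa := hE a (mem_insert_self a S)
    have hA0a := hA0 a (mem_insert_self a S)
    have hprod : Tendsto (fun q => ∏ j ∈ S, (A j q + D q * E j q)) l (𝓝 (∏ j ∈ S, A0 j)) := by
      have : Tendsto (fun q => ∏ j ∈ S, (A j q + D q * E j q)) l
          (𝓝 (∏ j ∈ S, (A0 j + 0 * E0 j))) := by
        apply tendsto_finsetProd
        intro j hj
        exact (hA j (mem_insert_of_mem hj)).add (hD.mul (hE j (mem_insert_of_mem hj)))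
      simpa using this
    have h1 : Tendsto (fun q => E a q * (∏ j ∈ S, (A j q + D q * E j q)) +
        A a q * ((∏ j ∈ S, (A j q + D q * E j q) - ∏ j ∈ S, A j q) / D q)) l
        (𝓝 (E0 a * (∏ j ∈ S, A0 j) +
          A0 a * ((∏ j ∈ S, A0 j) * ∑ j ∈ S, E0 j / A0 j))) :=
      (hEa.mul hprod).add (hAa.mul ih')
    have h2 : (∏ j ∈ insert a S, A0 j) * ∑ j ∈ insert a S, E0 j / A0 j =
        E0 a * (∏ j ∈ S, A0 j) + A0 a * ((∏ j ∈ S, A0 j) * ∑ j ∈ S, E0 j / A0 j) := by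
      rw [prod_insert ha, sum_insert ha]
      field_simp
    rw [h2]
    refine h1.congr' ?_
    filter_upwards [hDne] with q hq
    rw [prod_insert ha, prod_insert ha]
    field_simp
    ring

theorem ev_ne_one (ζ : ℂ) (i : ℕ) (hi : 1 ≤ i) : ∀ᶠ q in 𝓝[≠] ζ, q ^ i ≠ 1 := by
  have hfin : {q : ℂ | q ^ i = 1}.Finite := by
    have h : {q : ℂ | q ^ i = 1} ⊆ ((Polynomial.nthRoots i (1 : ℂ)).toFinset : Set ℂ) := by
      intro q hq
      simp only [Set.mem_ofPred_eq] at hq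
      simp only [Multiset.mem_toFinset, Finset.mem_coe]
      rw [Polynomial.mem_nthRoots (by omega)]
      exact hq
    exact (Finset.finite_toSet _).subset h
  have hfin2 : ({q : ℂ | q ^ i = 1} \ {ζ}).Finite := hfin.subset Set.sdiff_subset
  have hmem : ({q : ℂ | q ^ i = 1} \ {ζ})ᶜ ∈ 𝓝 ζ :=
    hfin2.isClosed.isOpen_compl.mem_nhds (by simp)
  rw [eventually_nhdsWithin_iff]
  filter_upwards [hmem] with q hq hne h1
  exact hq ⟨h1, hne⟩

theorem ev_all_ne (ζ : ℂ) (M : ℕ) :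
    ∀ᶠ q in 𝓝[≠] ζ, ∀ i, 1 ≤ i → i ≤ M → q ^ i ≠ 1 := by
  have h : ∀ᶠ q in 𝓝[≠] ζ, ∀ i ∈ Finset.Icc 1 M, q ^ i ≠ 1 := by
    rw [Finset.eventually_all]
    intro i hi
    exact ev_ne_one ζ i (Finset.mem_Icc.1 hi).1
  filter_upwards [h] with q hq i h1 h2
  exact hq i (Finset.mem_Icc.2 ⟨h1, h2⟩)

theorem tends {ζ : ℂ} {f : ℂ → ℂ} (hf : ContinuousAt f ζ) {c : ℂ} (hc : f ζ = c) :
    Tendsto f (𝓝[≠] ζ) (𝓝 c) := by
  rw [← hc]
  exact hf.tendsto.mono_left nhdsWithin_le_nhds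

theorem cont_ev (N : ℕ) : Continuous (fun q : ℂ => ev q N) := by
  unfold ev
  fun_prop

theorem ev_succ (q : ℂ) (N : ℕ) : ev q (N + 1) = ev q N * (1 - q ^ (2 * N + 2)) := by
  unfold ev
  rw [prod_range_succ]

theorem ev_ne_zero {q : ℂ} {N : ℕ} (h : ∀ i, 1 ≤ i → i ≤ 2 * N → q ^ i ≠ 1) : ev q N ≠ 0 := by
  unfold ev
  rw [prod_ne_zero_iff]
  intro i hi
  have := h (2 * i + 2) (by omega) (by have := mem_range.1 hi; omega)
  exact sub_ne_zero.2 (Ne.symm this)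

theorem pow_even_ne {s : ℕ} {ζ : ℂ} (hζ : IsPrimitiveRoot ζ (2 * s + 1)) {i : ℕ}
    (hi : 1 ≤ i) (hi2 : i ≤ 2 * s) : ζ ^ (2 * i) ≠ 1 := by
  intro h
  have h1 := (hζ.pow_eq_one_iff_dvd _).1 h
  have h2 : (2 * s + 1) ∣ i := by
    apply Nat.Coprime.dvd_of_dvd_mul_left _ h1
    rw [Nat.coprime_mul_left_add_left] <;> norm_num
  have := Nat.le_of_dvd (by omega) h2
  omega

theorem ev_zeta_ne {s : ℕ} {ζ : ℂ} (hζ : IsPrimitiveRoot ζ (2 * s + 1)) {N : ℕ}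
    (hN : N ≤ 2 * s) : ev ζ N ≠ 0 := by
  unfold ev
  rw [prod_ne_zero_iff]
  intro i hi
  have h := pow_even_ne hζ (i := i + 1) (by omega) (by have := mem_range.1 hi; omega)
  exact sub_ne_zero.2 (Ne.symm h)

theorem odd_ne {s : ℕ} {ζ : ℂ} (hζ : IsPrimitiveRoot ζ (2 * s + 1)) {m : ℕ}
    (hm : m < s) : ζ ^ (2 * m + 1) ≠ 1 := by
  intro h
  have h1 := (hζ.pow_eq_one_iff_dvd _).1 h
  have := Nat.le_of_dvd (by omega) h1
  omega

theorem prod_split (f : ℕ → ℂ) (m r : ℕ) :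
    ∏ i ∈ range (m + 2 * r), f i =
      (∏ i ∈ range m, f i) * ∏ j ∈ range r, (f (m + j) * f (m + 2 * r - 1 - j)) := by
  have e : m + 2 * r = m + (r + r) := by ring
  rw [prod_mul_distrib, e, prod_range_add, prod_range_add, ← mul_assoc, ← mul_assoc]
  congr 1
  rw [← prod_range_reflect]
  apply prod_congr rfl
  intro j hj
  have := mem_range.1 hj
  congr 1
  omega

theorem prod_mid (f : ℕ → ℂ) (s : ℕ) :
    ∏ i ∈ range (2 * s + 1), f i =
      f s * ∏ j ∈ range s, (f (s - 1 - j) * f (s + 1 + j)) := by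
  have e : 2 * s + 1 = s + 1 + s := by ring
  rw [prod_mul_distrib, e, prod_range_add, prod_range_succ, prod_range_reflect]
  ring

theorem sum_mid (f : ℕ → ℂ) (s : ℕ) :
    ∑ i ∈ range (2 * s + 1), f i =
      f s + ∑ m ∈ range s, (f m + f (2 * s - m)) := by
  have e : 2 * s + 1 = s + 1 + s := by ring
  rw [sum_add_distrib, e, sum_range_add, sum_range_succ]
  have h : ∑ x ∈ range s, f (s + 1 + x) = ∑ x ∈ range s, f (2 * s - x) := by
    rw [← sum_range_reflect]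
    apply sum_congr rfl
    intro j hj
    have := mem_range.1 hj
    congr 1
    omega
  rw [h]
  ring

/-- `od_n / (1 - q^n)` -/
noncomputable def gg (q : ℂ) (s : ℕ) : ℂ :=
  ∏ j ∈ range s, ((1 - q ^ (2 * (s - 1 - j) + 1)) * (1 - q ^ (2 * (s + 1 + j) + 1)))

theorem cont_gg (s : ℕ) : Continuous (fun q : ℂ => gg q s) := by
  unfold gg
  fun_prop

theorem od_gg (q : ℂ) (s : ℕ) : od q (2 * s + 1) = (1 - q ^ (2 * s + 1)) * gg q s := by
  unfold od gg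
  rw [prod_mid (fun i => 1 - q ^ (2 * i + 1))]

theorem gg_zeta {s : ℕ} {ζ : ℂ} (hζ : IsPrimitiveRoot ζ (2 * s + 1)) :
    gg ζ s = ev ζ (2 * s) := by
  unfold gg ev
  have h := prod_split (fun i => 1 - ζ ^ (2 * i + 2)) 0 s
  simp only [zero_add, range_zero, prod_empty, one_mul] at h
  rw [h]
  apply prod_congr rfl
  intro j hj
  have hj' := mem_range.1 hj
  have h1 : ζ ^ (2 * (2 * s - 1 - j) + 2) = ζ ^ (2 * (s - 1 - j) + 1) := by
    have e : 2 * (2 * s - 1 - j) + 2 = (2 * s + 1) + (2 * (s - 1 - j) + 1) := by omega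
    rw [e, pow_add, hζ.pow_eq_one, one_mul]
  have h2 : ζ ^ (2 * (s + 1 + j) + 1) = ζ ^ (2 * j + 2) := by
    have e : 2 * (s + 1 + j) + 1 = (2 * s + 1) + (2 * j + 2) := by omega
    rw [e, pow_add, hζ.pow_eq_one, one_mul]
  rw [h1, h2]
  ring

theorem ev_rel {s : ℕ} {ζ : ℂ} (hζ : IsPrimitiveRoot ζ (2 * s + 1)) (m : ℕ) (hm : m ≤ 2 * s) :
    ζ ^ (m * (m + 1)) * ev ζ (2 * s) = (-1) ^ m * ev ζ m * ev ζ (2 * s - m) := by
  induction m with
  | zero => simp [ev]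
  | succ m ih =>
    have ih' := ih (by omega)
    have e1 : (m + 1) * (m + 1 + 1) = (2 * m + 2) + m * (m + 1) := by ring
    have e2 : 2 * s - m = (2 * s - (m + 1)) + 1 := by omega
    rw [e1, pow_add, mul_assoc, ih', e2, ev_succ, ev_succ]
    have e3 : ζ ^ (2 * m + 2) * ζ ^ (2 * (2 * s - (m + 1)) + 2) = 1 := by
      rw [← pow_add]
      have : 2 * m + 2 + (2 * (2 * s - (m + 1)) + 2) = (2 * s + 1) * 2 := by omega
      rw [this, pow_mul, hζ.pow_eq_one, one_pow]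
    have e4 : ζ ^ (2 * m + 2) * (1 - ζ ^ (2 * (2 * s - (m + 1)) + 2)) =
        -(1 - ζ ^ (2 * m + 2)) := by
      rw [mul_sub, e3]
      ring
    calc ζ ^ (2 * m + 2) * ((-1) ^ m * ev ζ m *
          (ev ζ (2 * s - (m + 1)) * (1 - ζ ^ (2 * (2 * s - (m + 1)) + 2))))
        = (-1) ^ m * ev ζ m * ev ζ (2 * s - (m + 1)) *
          (ζ ^ (2 * m + 2) * (1 - ζ ^ (2 * (2 * s - (m + 1)) + 2))) := by ring
      _ = (-1) ^ m * ev ζ m * ev ζ (2 * s - (m + 1)) * (-(1 - ζ ^ (2 * m + 2))) := by rw [e4]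
      _ = _ := by ring

theorem prod_odd_pow (q : ℂ) (s : ℕ) : ∏ j ∈ range s, q ^ (2 * j + 1) = q ^ (s * s) := by
  induction s with
  | zero => simp
  | succ s ih =>
    rw [prod_range_succ, ih, ← pow_add]
    congr 1
    ring

theorem prod_b (q : ℂ) (s : ℕ) :
    q ^ s * ∏ j ∈ range s, (-q ^ (2 * (s - 1 - j) + 1)) = (-1) ^ s * q ^ (s * (s + 1)) := by
  have h1 : ∏ j ∈ range s, (-q ^ (2 * (s - 1 - j) + 1)) = (-1) ^ s * q ^ (s * s) := by
    rw [prod_neg, card_range]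
    congr 1
    rw [prod_range_reflect (fun j => q ^ (2 * j + 1)), prod_odd_pow]
  rw [h1]
  have : s * (s + 1) = s + s * s := by ring
  rw [this, pow_add]
  ring

/-- the middle term of `L` -/
theorem midL (s : ℕ) (ζ : ℂ) (hζ : IsPrimitiveRoot ζ (2 * s + 1)) :
    Tendsto (fun q : ℂ => (TL q (2 * s + 1) s - (-1) ^ s * q ^ (s * (s + 1))) /
      (1 - q ^ (2 * s + 1)) ^ 2) (𝓝[≠] ζ)
      (𝓝 (-((-1) ^ s * ζ ^ (s * (s + 1))) *
        ∑ j ∈ range s, ζ ^ (2 * j + 2) / (1 - ζ ^ (2 * j + 2)) ^ 2)) := by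
  have hz0 : ζ ≠ 0 := hζ.ne_zero (by omega)
  have hP := P_lem (𝓝[≠] ζ) (fun q => (1 - q ^ (2 * s + 1)) ^ 2)
    (tends (by fun_prop) (by rw [hζ.pow_eq_one]; ring))
    (by
      filter_upwards [ev_ne_one ζ (2 * s + 1) (by omega)] with q hq
      exact pow_ne_zero 2 (sub_ne_zero.2 (Ne.symm hq)))
    (fun j q => -q ^ (2 * (s - 1 - j) + 1)) (fun j q => 1 / (1 - q ^ (2 * j + 2)) ^ 2)
    (fun j => -ζ ^ (2 * (s - 1 - j) + 1)) (fun j => 1 / (1 - ζ ^ (2 * j + 2)) ^ 2) (range s)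
    (by
      intro j _
      exact tends (by fun_prop) rfl)
    (by
      intro j hj
      have hj' := mem_range.1 hj
      have h := pow_even_ne hζ (i := j + 1) (by omega) (by omega)
      have h' : (1 - ζ ^ (2 * j + 2)) ^ 2 ≠ 0 := pow_ne_zero 2 (sub_ne_zero.2 (Ne.symm h))
      refine tends (ContinuousAt.div (by fun_prop) (by fun_prop) h') rfl)
    (by
      intro j _
      exact neg_ne_zero.2 (pow_ne_zero _ hz0))
  have hq : Tendsto (fun q : ℂ => q ^ s) (𝓝[≠] ζ) (𝓝 (ζ ^ s)) := tends (by fun_prop) rfl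
  have h3 := hq.mul hP
  have hval : -((-1) ^ s * ζ ^ (s * (s + 1))) *
        ∑ j ∈ range s, ζ ^ (2 * j + 2) / (1 - ζ ^ (2 * j + 2)) ^ 2 =
      ζ ^ s * ((∏ j ∈ range s, -ζ ^ (2 * (s - 1 - j) + 1)) *
        ∑ j ∈ range s, 1 / (1 - ζ ^ (2 * j + 2)) ^ 2 / -ζ ^ (2 * (s - 1 - j) + 1)) := by
    rw [← mul_assoc, prod_b, neg_mul, ← mul_neg, ← sum_neg_distrib]
    congr 1
    apply sum_congr rfl
    intro j hj
    have hj' := mem_range.1 hj
    have h := pow_even_ne hζ (i := j + 1) (by omega) (by omega)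
    have h' : (1 - ζ ^ (2 * j + 2)) ≠ 0 := (sub_ne_zero.2 (Ne.symm h))
    have hb : ζ ^ (2 * (s - 1 - j) + 1) * ζ ^ (2 * j + 2) = 1 := by
      rw [← pow_add]
      have : 2 * (s - 1 - j) + 1 + (2 * j + 2) = 2 * s + 1 := by omega
      rw [this, hζ.pow_eq_one]
    have hb0 : ζ ^ (2 * (s - 1 - j) + 1) ≠ 0 := pow_ne_zero _ hz0
    field_simp
    linear_combination -hb
  rw [hval]
  refine h3.congr' ?_
  filter_upwards [ev_all_ne ζ (4 * (2 * s + 1))] with q hq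
  have hd : (1 - q ^ (2 * s + 1)) ≠ 0 := sub_ne_zero.2 (Ne.symm (hq _ (by omega) (by omega)))
  have hT : TL q (2 * s + 1) s = q ^ s * ∏ j ∈ range s,
      (-q ^ (2 * (s - 1 - j) + 1) + (1 - q ^ (2 * s + 1)) ^ 2 * (1 / (1 - q ^ (2 * j + 2)) ^ 2)) := by
    unfold TL
    have e : 2 * s + 1 - 1 - s = s := by omega
    rw [od_gg, e]
    have hev : ev q s ≠ 0 := ev_ne_zero (fun i h1 h2 => hq i h1 (by omega))
    have hprod : gg q s = (∏ j ∈ range s,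
      (-q ^ (2 * (s - 1 - j) + 1) + (1 - q ^ (2 * s + 1)) ^ 2 * (1 / (1 - q ^ (2 * j + 2)) ^ 2)))
        * (ev q s * ev q s) := by
      unfold gg ev
      rw [← prod_mul_distrib, ← prod_mul_distrib]
      apply prod_congr rfl
      intro j hj
      have hj' := mem_range.1 hj
      have hy : (1 - q ^ (2 * j + 2)) ≠ 0 :=
        sub_ne_zero.2 (Ne.symm (hq _ (by omega) (by omega)))
      have e1 : q ^ (2 * s + 1) = q ^ (2 * (s - 1 - j) + 1) * q ^ (2 * j + 2) := by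
        rw [← pow_add]
        congr 1
        omega
      have e2 : q ^ (2 * (s + 1 + j) + 1) = q ^ (2 * (s - 1 - j) + 1) * q ^ (2 * j + 2) *
          q ^ (2 * j + 2) := by
        rw [← pow_add, ← pow_add]
        congr 1
        omega
      rw [e1, e2]
      field_simp
      ring
    rw [hprod]
    field_simp
  rw [hT, ← prod_b]
  ring

/-- the pairs of terms of `L` -/
theorem pairL (m r : ℕ) (hr : 1 ≤ r) (ζ : ℂ) (hζ : IsPrimitiveRoot ζ (2 * (m + r) + 1)) :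
    Tendsto (fun q : ℂ => (TL q (2 * (m + r) + 1) m + TL q (2 * (m + r) + 1) (m + 2 * r)) /
      (1 - q ^ (2 * (m + r) + 1)) ^ 2) (𝓝[≠] ζ)
      (𝓝 (-((-1) ^ m * (ζ ^ (m * m))⁻¹ * (1 + ζ ^ (2 * m + 1)) /
        (1 - ζ ^ (2 * m + 1)) ^ 2))) := by
  have hz0 : ζ ≠ 0 := hζ.ne_zero (by omega)
  have ha : 1 - ζ ^ (2 * m + 1) ≠ 0 :=
    sub_ne_zero.2 (Ne.symm (odd_ne hζ (by omega)))
  have ha2 : ζ ^ (2 * m + 1) - (ζ ^ (2 * (m + r) + 1)) ^ 2 ≠ 0 := by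
    rw [hζ.pow_eq_one, one_pow, ← neg_sub]
    exact neg_ne_zero.2 ha
  have he1 : ev ζ m ≠ 0 := ev_zeta_ne hζ (by omega)
  have he2 : ev ζ (m + 2 * r) ≠ 0 := ev_zeta_ne hζ (by omega)
  have hc1 := cont_ev m
  have hc2 := cont_ev (m + 2 * r)
  have hc3 := cont_gg (m + r)
  have hlim : Tendsto (fun q : ℂ => gg q (m + r) * q ^ m *
      (q ^ (2 * m + 1) + q ^ (2 * (m + r) + 1)) / (ev q m * ev q (m + 2 * r) *
        (1 - q ^ (2 * m + 1)) * (q ^ (2 * m + 1) - (q ^ (2 * (m + r) + 1)) ^ 2))) (𝓝[≠] ζ)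
      (𝓝 (-((-1) ^ m * (ζ ^ (m * m))⁻¹ * (1 + ζ ^ (2 * m + 1)) /
        (1 - ζ ^ (2 * m + 1)) ^ 2))) := by
    refine tends (ContinuousAt.div (by fun_prop) (by fun_prop) ?_) ?_
    · exact mul_ne_zero (mul_ne_zero (mul_ne_zero he1 he2) ha) ha2
    · simp only [Pi.div_apply]
      rw [gg_zeta hζ]
      have hrel := ev_rel hζ m (by omega)
      have e : 2 * (m + r) - m = m + 2 * r := by omega
      rw [e] at hrel
      rw [hζ.pow_eq_one, one_pow]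
      have hmm : ζ ^ (m * (m + 1)) = ζ ^ (m * m) * ζ ^ m := by
        rw [← pow_add]
        congr 1
      have hm0 : ζ ^ (m * m) ≠ 0 := pow_ne_zero _ hz0
      have hma : ζ ^ (2 * m + 1) - 1 ≠ 0 := by
        rw [← neg_sub]
        exact neg_ne_zero.2 ha
      rw [hmm] at hrel
      rw [div_eq_iff (mul_ne_zero (mul_ne_zero (mul_ne_zero he1 he2) ha) hma)]
      have h5 : ev ζ (2 * (m + r)) * ζ ^ m =
          (ζ ^ (m * m))⁻¹ * ((-1) ^ m * ev ζ m * ev ζ (m + 2 * r)) := by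
        rw [← hrel]
        field_simp
      rw [h5]
      field_simp
      ring
  refine hlim.congr' ?_
  have hq0 : ∀ᶠ q in 𝓝[≠] ζ, q ≠ 0 := by
    have : Tendsto (fun q : ℂ => q) (𝓝[≠] ζ) (𝓝 ζ) := tends (by fun_prop) rfl
    exact this.eventually_ne hz0
  filter_upwards [ev_all_ne ζ (4 * (2 * (m + r) + 1)), hq0] with q hq hq0
  have hd : (1 - q ^ (2 * (m + r) + 1)) ≠ 0 :=
    sub_ne_zero.2 (Ne.symm (hq _ (by omega) (by omega)))
  have hqa : 1 - q ^ (2 * m + 1) ≠ 0 :=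
    sub_ne_zero.2 (Ne.symm (hq _ (by omega) (by omega)))
  have hqb : 1 - q ^ (2 * (m + 2 * r) + 1) ≠ 0 :=
    sub_ne_zero.2 (Ne.symm (hq _ (by omega) (by omega)))
  have hev1 : ev q m ≠ 0 := ev_ne_zero (fun i h1 h2 => hq i h1 (by omega))
  have hev2 : ev q (m + 2 * r) ≠ 0 := ev_ne_zero (fun i h1 h2 => hq i h1 (by omega))
  have e1 : q ^ (2 * m + 1) * q ^ (2 * (m + 2 * r) + 1) = (q ^ (2 * (m + r) + 1)) ^ 2 := by
    rw [← pow_add, ← pow_mul]
    congr 1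
    ring
  have e2 : q ^ (2 * m + 1) * q ^ (m + 2 * r) = q ^ (2 * (m + r) + 1) * q ^ m := by
    rw [← pow_add, ← pow_add]
    congr 1
    ring
  have e3 : q ^ (2 * m + 1) - (q ^ (2 * (m + r) + 1)) ^ 2 =
      q ^ (2 * m + 1) * (1 - q ^ (2 * (m + 2 * r) + 1)) := by
    rw [mul_sub, e1, mul_one]
  have ha0 : q ^ (2 * m + 1) ≠ 0 := pow_ne_zero _ hq0
  unfold TL
  rw [od_gg]
  have f1 : 2 * (m + r) + 1 - 1 - m = m + 2 * r := by omega
  have f2 : 2 * (m + r) + 1 - 1 - (m + 2 * r) = m := by omega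
  rw [f1, f2, e3]
  field_simp
  have e4 : q ^ (m + 2 * r) = q ^ (2 * (m + r) + 1) * q ^ m / q ^ (2 * m + 1) := by
    rw [← e2]
    field_simp
  have e5 : q ^ (2 * (m + 2 * r) + 1) = (q ^ (2 * (m + r) + 1)) ^ 2 / q ^ (2 * m + 1) := by
    rw [← e1]
    field_simp
  rw [e4, e5]
  field_simp
  ring

theorem t_LL : S_LL := by
  intro s ζ hζ hs
  have h1 := midL s ζ hζ
  have h2 : Tendsto (fun q : ℂ => ∑ m ∈ range s,
      (TL q (2 * s + 1) m + TL q (2 * s + 1) (2 * s - m)) / (1 - q ^ (2 * s + 1)) ^ 2) (𝓝[≠] ζ)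
      (𝓝 (∑ m ∈ range s, -((-1) ^ m * (ζ ^ (m * m))⁻¹ * (1 + ζ ^ (2 * m + 1)) /
        (1 - ζ ^ (2 * m + 1)) ^ 2))) := by
    apply tendsto_finsetSum
    intro m hm
    have hm' := mem_range.1 hm
    obtain ⟨r, rfl⟩ : ∃ r, s = m + r := ⟨s - m, by omega⟩
    have := pairL m r (by omega) ζ hζ
    have e : 2 * (m + r) - m = m + 2 * r := by omega
    rw [e]
    exact this
  have h3 := h1.add h2
  have hv : lam s ζ = -((-1) ^ s * ζ ^ (s * (s + 1))) *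
        ∑ j ∈ range s, ζ ^ (2 * j + 2) / (1 - ζ ^ (2 * j + 2)) ^ 2 +
      ∑ m ∈ range s, -((-1) ^ m * (ζ ^ (m * m))⁻¹ * (1 + ζ ^ (2 * m + 1)) /
        (1 - ζ ^ (2 * m + 1)) ^ 2) := by
    unfold lam
    rw [sum_neg_distrib]
    ring
  rw [hv]
  refine h3.congr ?_
  intro q
  rw [sum_mid (fun m => TL q (2 * s + 1) m), ← sum_div]
  ring

end Pool.Agent.R600.QC
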