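import Pool.Agent.R600.QC.LL

/-!
# Project QC, piece QC-3: the limit of the `R`-sum at a root of unity.
-/

open Finset Filter Topology

namespace Pool.Agent.R600.QC

theorem ev_big (q : ℂ) (s m : ℕ) : ev q (2 * s + 1 + m) =
    ev q (2 * s) * (1 - (q ^ (2 * s + 1)) ^ 2) *
      ∏ j ∈ range m, (1 - (q ^ (2 * s + 1)) ^ 2 * q ^ (2 * j + 2)) := by
  unfold ev
  rw [prod_range_add, prod_range_succ]
  congr 1
  · congr 2
    rw [← pow_mul]
    congr 1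
    ring
  · apply prod_congr rfl
    intro j _
    congr 1
    rw [← pow_mul, ← pow_add]
    congr 1
    ring

theorem ev_split (q : ℂ) (m r : ℕ) : ev q (m + 2 * r) = ev q m *
    ∏ j ∈ range r, ((1 - q ^ (2 * (m + j) + 2)) * (1 - q ^ (2 * (m + 2 * r - 1 - j) + 2))) := by
  unfold ev
  rw [prod_split (fun i => 1 - q ^ (2 * i + 2))]

theorem prod_even_pow (q : ℂ) (s : ℕ) : ∏ j ∈ range s, q ^ (2 * j + 2) = q ^ (s * (s + 1)) := by
  induction s with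
  | zero => simp
  | succ s ih =>
    rw [prod_range_succ, ih, ← pow_add]
    congr 1
    ring

theorem prod_yinv (q : ℂ) (hq : q ≠ 0) (s : ℕ) :
    q ^ (2 * s * (s + 1)) * ∏ j ∈ range s, (-(q ^ (2 * j + 2))⁻¹) =
      (-1) ^ s * q ^ (s * (s + 1)) := by
  rw [prod_neg, card_range, prod_inv_distrib, prod_even_pow]
  have e : 2 * s * (s + 1) = s * (s + 1) + s * (s + 1) := by ring
  have h0 : q ^ (s * (s + 1)) ≠ 0 := pow_ne_zero _ hq
  rw [e, pow_add]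
  field_simp

theorem sub_ne {q : ℂ} {M : ℕ} (hq : ∀ i, 1 ≤ i → i ≤ M → q ^ i ≠ 1) {i : ℕ} (h1 : 1 ≤ i)
    (h2 : i ≤ M) : 1 - q ^ i ≠ 0 := sub_ne_zero.2 (Ne.symm (hq i h1 h2))

theorem facR (b y : ℂ) (hy0 : y ≠ 0) (hy : 1 - y ≠ 0) (hz : 1 - b * b * y ≠ 0)
    (hw : 1 - (b * y) ^ 2 * y ≠ 0) :
    ((1 - b) * (1 - b * y * y)) ^ 2 =
      (-y⁻¹ + (1 - b * y) ^ 2 * (((1 - b * y) ^ 2 / (1 - y) ^ 2 + (1 + (b * y) ^ 2) / y) /
        ((1 - (b * y) ^ 2 * y) * (1 - b * b * y)))) *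
      ((1 - y) * ((1 - y) * (1 - b * b * y)) * (1 - (b * y) ^ 2 * y)) := by
  have e1 : 1 - b * b * y = 1 - b ^ 2 * y := by ring
  have e2 : 1 - (b * y) ^ 2 * y = 1 - b ^ 2 * y ^ 3 := by ring
  rw [e1] at hz ⊢
  rw [e2] at hw ⊢
  field_simp
  ring

theorem tdiv {f g : ℂ → ℂ} {ζ c : ℂ} (hf : ContinuousAt f ζ) (hg : ContinuousAt g ζ)
    (h : g ζ ≠ 0) (hc : f ζ / g ζ = c) :
    Tendsto (fun q => f q / g q) (𝓝[≠] ζ) (𝓝 c) :=
  tends (ContinuousAt.div hf hg h) hc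

theorem facE (y : ℂ) (hy0 : y ≠ 0) (hy : 1 - y ≠ 0) :
    ((1 - 1) ^ 2 / (1 - y) ^ 2 + (1 + 1 ^ 2) / y) / ((1 - 1 ^ 2 * y) * (1 - y⁻¹)) =
      -2 / (1 - y) ^ 2 := by
  have h6 : y - 1 ≠ 0 := by
    rw [← neg_sub]
    exact neg_ne_zero.2 hy
  have h7 : 1 - y⁻¹ = -(1 - y) / y := by field_simp; ring
  rw [h7]
  field_simp
  ring

/-- the middle term of `R` -/
theorem midR (s : ℕ) (ζ : ℂ) (hζ : IsPrimitiveRoot ζ (2 * s + 1)) :
    Tendsto (fun q : ℂ => (TR q (2 * s + 1) s - (-1) ^ s * q ^ (s * (s + 1))) /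
      (1 - q ^ (2 * s + 1)) ^ 2) (𝓝[≠] ζ)
      (𝓝 (2 * ((-1) ^ s * ζ ^ (s * (s + 1))) *
        ∑ j ∈ range s, ζ ^ (2 * j + 2) / (1 - ζ ^ (2 * j + 2)) ^ 2)) := by
  have hz0 : ζ ≠ 0 := hζ.ne_zero (by omega)
  have hz : ∀ j ∈ range s, ζ ^ (2 * j + 2) * ζ ^ (2 * (2 * s - 1 - j) + 2) = 1 := by
    intro j hj
    have hj' := mem_range.1 hj
    rw [← pow_add]
    have : 2 * j + 2 + (2 * (2 * s - 1 - j) + 2) = (2 * s + 1) * 2 := by omega
    rw [this, pow_mul, hζ.pow_eq_one, one_pow]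
  have hP := P_lem (𝓝[≠] ζ) (fun q => (1 - q ^ (2 * s + 1)) ^ 2)
    (tends (by fun_prop) (by rw [hζ.pow_eq_one]; ring))
    (by
      filter_upwards [ev_ne_one ζ (2 * s + 1) (by omega)] with q hq
      exact pow_ne_zero 2 (sub_ne_zero.2 (Ne.symm hq)))
    (fun j q => -(q ^ (2 * j + 2))⁻¹)
    (fun j q => ((1 - q ^ (2 * s + 1)) ^ 2 / (1 - q ^ (2 * j + 2)) ^ 2 +
      (1 + (q ^ (2 * s + 1)) ^ 2) / q ^ (2 * j + 2)) /
      ((1 - (q ^ (2 * s + 1)) ^ 2 * q ^ (2 * j + 2)) * (1 - q ^ (2 * (2 * s - 1 - j) + 2))))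
    (fun j => -(ζ ^ (2 * j + 2))⁻¹) (fun j => -2 / (1 - ζ ^ (2 * j + 2)) ^ 2) (range s)
    (by
      intro j _
      have h0 : ζ ^ (2 * j + 2) ≠ 0 := pow_ne_zero _ hz0
      exact tends (ContinuousAt.neg (ContinuousAt.inv₀ (by fun_prop) h0)) rfl)
    (by
      intro j hj
      have hj' := mem_range.1 hj
      have h := pow_even_ne hζ (i := j + 1) (by omega) (by omega)
      have h1 : (1 - ζ ^ (2 * j + 2)) ≠ 0 := (sub_ne_zero.2 (Ne.symm h))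
      have h2 : (1 - ζ ^ (2 * j + 2)) ^ 2 ≠ 0 := pow_ne_zero 2 h1
      have h3 : ζ ^ (2 * j + 2) ≠ 0 := pow_ne_zero _ hz0
      have h' := pow_even_ne hζ (i := 2 * s - 1 - j + 1) (by omega) (by omega)
      have h4 : (1 - ζ ^ (2 * (2 * s - 1 - j) + 2)) ≠ 0 := (sub_ne_zero.2 (Ne.symm h'))
      have h5 : (1 - (ζ ^ (2 * s + 1)) ^ 2 * ζ ^ (2 * j + 2)) ≠ 0 := by
        rw [hζ.pow_eq_one, one_pow, one_mul]
        exact h1
      have c1 : ContinuousAt (fun q : ℂ => (1 - q ^ (2 * s + 1)) ^ 2 /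
          (1 - q ^ (2 * j + 2)) ^ 2) ζ := ContinuousAt.div (by fun_prop) (by fun_prop) h2
      have c2 : ContinuousAt (fun q : ℂ => (1 + (q ^ (2 * s + 1)) ^ 2) / q ^ (2 * j + 2)) ζ :=
        ContinuousAt.div (by fun_prop) (by fun_prop) h3
      have c3 : ContinuousAt (fun q : ℂ => ((1 - (q ^ (2 * s + 1)) ^ 2 * q ^ (2 * j + 2)) *
          (1 - q ^ (2 * (2 * s - 1 - j) + 2)))) ζ := by fun_prop
      refine tends ((c1.add c2).div c3 (mul_ne_zero h5 h4)) ?_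
      have hyz := hz j hj
      have hzz : ζ ^ (2 * (2 * s - 1 - j) + 2) = (ζ ^ (2 * j + 2))⁻¹ := by
        field_simp
        linear_combination hyz
      simp only [Pi.div_apply, Pi.add_apply]
      rw [hzz, hζ.pow_eq_one]
      exact facE _ h3 h1)
    (by
      intro j _
      exact neg_ne_zero.2 (inv_ne_zero (pow_ne_zero _ hz0)))
  have hq : Tendsto (fun q : ℂ => q ^ (2 * s * (s + 1))) (𝓝[≠] ζ) (𝓝 (ζ ^ (2 * s * (s + 1)))) :=
    tends (by fun_prop) rfl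
  have h3 := hq.mul hP
  have hval : 2 * ((-1) ^ s * ζ ^ (s * (s + 1))) *
        ∑ j ∈ range s, ζ ^ (2 * j + 2) / (1 - ζ ^ (2 * j + 2)) ^ 2 =
      ζ ^ (2 * s * (s + 1)) * ((∏ j ∈ range s, -(ζ ^ (2 * j + 2))⁻¹) *
        ∑ j ∈ range s, -2 / (1 - ζ ^ (2 * j + 2)) ^ 2 / -(ζ ^ (2 * j + 2))⁻¹) := by
    rw [show ∀ c S : ℂ, 2 * c * S = c * (2 * S) from fun c S => by ring, mul_sum]
    conv_rhs => rw [← mul_assoc, prod_yinv ζ hz0]
    congr 1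
    apply sum_congr rfl
    intro j hj
    have hj' := mem_range.1 hj
    have h := pow_even_ne hζ (i := j + 1) (by omega) (by omega)
    have h' : (1 - ζ ^ (2 * j + 2)) ≠ 0 := (sub_ne_zero.2 (Ne.symm h))
    have h3 : ζ ^ (2 * j + 2) ≠ 0 := pow_ne_zero _ hz0
    field_simp
  rw [hval]
  refine h3.congr' ?_
  have hq0 : ∀ᶠ q in 𝓝[≠] ζ, q ≠ 0 := by
    have : Tendsto (fun q : ℂ => q) (𝓝[≠] ζ) (𝓝 ζ) := tends (by fun_prop) rfl
    exact this.eventually_ne hz0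
  filter_upwards [ev_all_ne ζ (8 * (2 * s + 1)), hq0] with q hq hq0
  have hd : (1 - q ^ (2 * s + 1)) ≠ 0 := sub_ne hq (by omega) (by omega)
  have hd2 : (1 + q ^ (2 * s + 1)) ≠ 0 := by
    intro h
    have h2 := sub_ne hq (i := (2 * s + 1) * 2) (by omega) (by omega)
    apply h2
    rw [pow_mul]
    linear_combination (1 - q ^ (2 * s + 1)) * h
  have hT : TR q (2 * s + 1) s = q ^ (2 * s * (s + 1)) * ∏ j ∈ range s,
      (-(q ^ (2 * j + 2))⁻¹ + (1 - q ^ (2 * s + 1)) ^ 2 *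
      (((1 - q ^ (2 * s + 1)) ^ 2 / (1 - q ^ (2 * j + 2)) ^ 2 +
      (1 + (q ^ (2 * s + 1)) ^ 2) / q ^ (2 * j + 2)) /
      ((1 - (q ^ (2 * s + 1)) ^ 2 * q ^ (2 * j + 2)) * (1 - q ^ (2 * (2 * s - 1 - j) + 2))))) := by
    unfold TR
    have e : 2 * s + 1 - 1 - s = s := by omega
    rw [od_gg, e, ev_big]
    have hev : ev q s ≠ 0 := ev_ne_zero (fun i h1 h2 => hq i h1 (by omega))
    have hev2 : ev q (2 * s) ≠ 0 := ev_ne_zero (fun i h1 h2 => hq i h1 (by omega))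
    have hB : ∏ j ∈ range s, (1 - (q ^ (2 * s + 1)) ^ 2 * q ^ (2 * j + 2)) ≠ 0 := by
      rw [prod_ne_zero_iff]
      intro j hj
      have hj' := mem_range.1 hj
      rw [← pow_mul, ← pow_add]
      exact sub_ne hq (by omega) (by omega)
    have hprod : gg q s ^ 2 = (∏ j ∈ range s,
      (-(q ^ (2 * j + 2))⁻¹ + (1 - q ^ (2 * s + 1)) ^ 2 *
      (((1 - q ^ (2 * s + 1)) ^ 2 / (1 - q ^ (2 * j + 2)) ^ 2 +
      (1 + (q ^ (2 * s + 1)) ^ 2) / q ^ (2 * j + 2)) /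
      ((1 - (q ^ (2 * s + 1)) ^ 2 * q ^ (2 * j + 2)) * (1 - q ^ (2 * (2 * s - 1 - j) + 2))))))
        * (ev q s * ev q (2 * s) *
          ∏ j ∈ range s, (1 - (q ^ (2 * s + 1)) ^ 2 * q ^ (2 * j + 2))) := by
      have h2s := ev_split q 0 s
      simp only [zero_add] at h2s
      rw [h2s]
      unfold gg
      have h0 : ev q 0 = 1 := by simp [ev]
      rw [h0, one_mul]
      unfold ev
      rw [← prod_mul_distrib, ← prod_mul_distrib, ← prod_mul_distrib, ← prod_pow]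
      apply prod_congr rfl
      intro j hj
      have hj' := mem_range.1 hj
      have hy : (1 - q ^ (2 * j + 2)) ≠ 0 := sub_ne hq (by omega) (by omega)
      have hy0 : q ^ (2 * j + 2) ≠ 0 := pow_ne_zero _ hq0
      have hz1 : (1 - q ^ (2 * (2 * s - 1 - j) + 2)) ≠ 0 := sub_ne hq (by omega) (by omega)
      have hw : (1 - (q ^ (2 * s + 1)) ^ 2 * q ^ (2 * j + 2)) ≠ 0 := by
        rw [← pow_mul, ← pow_add]
        exact sub_ne hq (by omega) (by omega)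
      have e1 : q ^ (2 * s + 1) = q ^ (2 * (s - 1 - j) + 1) * q ^ (2 * j + 2) := by
        rw [← pow_add]
        congr 1
        omega
      have e2 : q ^ (2 * (s + 1 + j) + 1) = q ^ (2 * (s - 1 - j) + 1) * q ^ (2 * j + 2) *
          q ^ (2 * j + 2) := by
        rw [← pow_add, ← pow_add]
        congr 1
        omega
      have e3 : q ^ (2 * (2 * s - 1 - j) + 2) = q ^ (2 * (s - 1 - j) + 1) *
          q ^ (2 * (s - 1 - j) + 1) * q ^ (2 * j + 2) := by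
        rw [← pow_add, ← pow_add]
        congr 1
        omega
      rw [e1] at hw
      rw [e3] at hz1
      rw [e1, e2, e3]
      exact facR _ _ hy0 hy hz1 hw
    have e5 : (((1 - q ^ (2 * s + 1)) * gg q s) ^ 2) = (1 - q ^ (2 * s + 1)) ^ 2 * gg q s ^ 2 := by
      ring
    have e6 : (1 - (q ^ (2 * s + 1)) ^ 2) = (1 - q ^ (2 * s + 1)) * (1 + q ^ (2 * s + 1)) := by
      ring
    rw [e5, hprod, e6]
    generalize (∏ j ∈ range s,
      (-(q ^ (2 * j + 2))⁻¹ + (1 - q ^ (2 * s + 1)) ^ 2 *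
      (((1 - q ^ (2 * s + 1)) ^ 2 / (1 - q ^ (2 * j + 2)) ^ 2 +
      (1 + (q ^ (2 * s + 1)) ^ 2) / q ^ (2 * j + 2)) /
      ((1 - (q ^ (2 * s + 1)) ^ 2 * q ^ (2 * j + 2)) *
        (1 - q ^ (2 * (2 * s - 1 - j) + 2)))))) = X at *
    generalize ∏ j ∈ range s, (1 - (q ^ (2 * s + 1)) ^ 2 * q ^ (2 * j + 2)) = Y at *
    field_simp
  rw [hT, ← prod_yinv q hq0]
  ring

/-- the pairs of terms of `R` -/
theorem pairR (m r : ℕ) (hr : 1 ≤ r) (ζ : ℂ) (hζ : IsPrimitiveRoot ζ (2 * (m + r) + 1)) :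
    Tendsto (fun q : ℂ => (TR q (2 * (m + r) + 1) m + TR q (2 * (m + r) + 1) (m + 2 * r)) /
      (1 - q ^ (2 * (m + r) + 1)) ^ 2) (𝓝[≠] ζ)
      (𝓝 ((-1) ^ m * ζ ^ (m * (m + 1)) * ((r : ℂ) * (1 + ζ ^ (2 * m + 1)) /
        (1 - ζ ^ (2 * m + 1)) - 2 * ζ ^ (2 * m + 1) / (1 - ζ ^ (2 * m + 1)) ^ 2))) := by
  have hz0 : ζ ≠ 0 := hζ.ne_zero (by omega)
  have ha : 1 - ζ ^ (2 * m + 1) ≠ 0 :=
    sub_ne_zero.2 (Ne.symm (odd_ne hζ (by omega)))
  have hma : ζ ^ (2 * m + 1) - 1 ≠ 0 := by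
    rw [← neg_sub]
    exact neg_ne_zero.2 ha
  have ha2 : ζ ^ (2 * m + 1) - (ζ ^ (2 * (m + r) + 1)) ^ 2 ≠ 0 := by
    rw [hζ.pow_eq_one, one_pow]
    exact hma
  have he1 : ev ζ m ≠ 0 := ev_zeta_ne hζ (by omega)
  have he2 : ev ζ (m + 2 * r) ≠ 0 := ev_zeta_ne hζ (by omega)
  have he3 : ev ζ (2 * (m + r)) ≠ 0 := ev_zeta_ne hζ (by omega)
  have hc1 := cont_ev m
  have hc2 := cont_ev (m + 2 * r)
  have hc3 := cont_gg (m + r)
  have hc4 := cont_ev (2 * (m + r))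
  have hBz : ∏ j ∈ range m, (1 - (ζ ^ (2 * (m + r) + 1)) ^ 2 * ζ ^ (2 * j + 2)) = ev ζ m := by
    unfold ev
    apply prod_congr rfl
    intro j _
    rw [hζ.pow_eq_one, one_pow, one_mul]
  -- first factor
  have hG : Tendsto (fun q : ℂ => gg q (m + r) ^ 2 * q ^ (2 * m * (m + 1)) /
      (ev q (2 * (m + r)) * ev q (m + 2 * r) *
        ∏ j ∈ range m, (1 - (q ^ (2 * (m + r) + 1)) ^ 2 * q ^ (2 * j + 2)))) (𝓝[≠] ζ)
      (𝓝 ((-1) ^ m * ζ ^ (m * (m + 1)))) := by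
    refine tdiv (by fun_prop) (by fun_prop) ?_ ?_
    · rw [hBz]
      exact mul_ne_zero (mul_ne_zero he3 he2) he1
    · rw [gg_zeta hζ, hBz]
      have hrel := ev_rel hζ m (by omega)
      have e : 2 * (m + r) - m = m + 2 * r := by omega
      rw [e] at hrel
      have e2 : 2 * m * (m + 1) = m * (m + 1) + m * (m + 1) := by ring
      rw [div_eq_iff (mul_ne_zero (mul_ne_zero he3 he2) he1), e2, pow_add]
      linear_combination (ζ ^ (m * (m + 1)) * ev ζ (2 * (m + r))) * hrel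
  -- second factor
  have hH : Tendsto (fun q : ℂ => (2 * q ^ (2 * m + 1) -
      (∑ i ∈ range r, ((q ^ (2 * (m + r) + 1)) ^ 2) ^ i) *
        (q ^ (2 * m + 1) + (q ^ (2 * (m + r) + 1)) ^ 2) * (1 - q ^ (2 * m + 1))) /
      ((1 - q ^ (2 * m + 1)) * (q ^ (2 * m + 1) - (q ^ (2 * (m + r) + 1)) ^ 2))) (𝓝[≠] ζ)
      (𝓝 ((r : ℂ) * (1 + ζ ^ (2 * m + 1)) /
        (1 - ζ ^ (2 * m + 1)) - 2 * ζ ^ (2 * m + 1) / (1 - ζ ^ (2 * m + 1)) ^ 2)) := by
    refine tdiv (by fun_prop) (by fun_prop) ?_ ?_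
    · exact mul_ne_zero ha ha2
    · rw [hζ.pow_eq_one, one_pow]
      simp only [one_pow, sum_const, card_range, nsmul_eq_mul, mul_one]
      have e : ζ ^ (2 * m + 1) - 1 = -(1 - ζ ^ (2 * m + 1)) := by ring
      rw [e]
      generalize ζ ^ (2 * m + 1) = a at *
      field_simp
      ring
  -- third factor
  have hK : Tendsto (fun q : ℂ => ((q ^ (2 * (m + r) + 1)) ^ 2) ^ r *
      (q ^ (2 * m + 1) + (q ^ (2 * (m + r) + 1)) ^ 2) /
      (q ^ (2 * m + 1) - (q ^ (2 * (m + r) + 1)) ^ 2)) (𝓝[≠] ζ)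
      (𝓝 ((ζ ^ (2 * m + 1) + 1) / (ζ ^ (2 * m + 1) - 1))) := by
    refine tdiv (by fun_prop) (by fun_prop) ha2 ?_
    rw [hζ.pow_eq_one]
    simp
  have hW := P_lem (𝓝[≠] ζ) (fun q => 1 - (q ^ (2 * (m + r) + 1)) ^ 2)
    (tends (f := fun q => 1 - (q ^ (2 * (m + r) + 1)) ^ 2) (by fun_prop)
      (by simp only [hζ.pow_eq_one]; ring))
    (by
      filter_upwards [ev_ne_one ζ ((2 * (m + r) + 1) * 2) (by omega)] with q hq
      rw [← pow_mul]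
      exact (sub_ne_zero.2 (Ne.symm hq)))
    (fun _ _ => 1)
    (fun j q => -(1 - (q ^ (2 * (m + r) + 1)) ^ 4) /
      ((1 - (q ^ (2 * (m + r) + 1)) ^ 2 * q ^ (2 * (m + j) + 2)) *
        (1 - (q ^ (2 * (m + r) + 1)) ^ 2 * q ^ (2 * (m + 2 * r - 1 - j) + 2))))
    (fun _ => 1) (fun _ => 0) (range r)
    (by
      intro j _
      exact tendsto_const_nhds)
    (by
      intro j hj
      have hj' := mem_range.1 hj
      have h := pow_even_ne hζ (i := m + j + 1) (by omega) (by omega)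
      have h1 : (1 - (ζ ^ (2 * (m + r) + 1)) ^ 2 * ζ ^ (2 * (m + j) + 2)) ≠ 0 := by
        rw [hζ.pow_eq_one, one_pow, one_mul]
        exact (sub_ne_zero.2 (Ne.symm h))
      have h' := pow_even_ne hζ (i := m + 2 * r - 1 - j + 1) (by omega) (by omega)
      have h2 : (1 - (ζ ^ (2 * (m + r) + 1)) ^ 2 * ζ ^ (2 * (m + 2 * r - 1 - j) + 2)) ≠ 0 := by
        rw [hζ.pow_eq_one, one_pow, one_mul]
        exact (sub_ne_zero.2 (Ne.symm h'))
      refine tdiv (by fun_prop) (by fun_prop) (mul_ne_zero h1 h2) ?_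
      rw [hζ.pow_eq_one]
      simp)
    (by
      intro j _
      exact one_ne_zero)
  simp only [zero_div, sum_const_zero, mul_zero, prod_const_one] at hW
  have hlim := hG.mul (hH.add (hK.mul hW))
  rw [mul_zero, add_zero] at hlim
  refine hlim.congr' ?_
  have hq0 : ∀ᶠ q in 𝓝[≠] ζ, q ≠ 0 := by
    have : Tendsto (fun q : ℂ => q) (𝓝[≠] ζ) (𝓝 ζ) := tends (by fun_prop) rfl
    exact this.eventually_ne hz0
  filter_upwards [ev_all_ne ζ (16 * (2 * (m + r) + 1)), hq0] with q hq hq0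
  have hd : (1 - q ^ (2 * (m + r) + 1)) ≠ 0 := sub_ne hq (by omega) (by omega)
  have hd2 : (1 - (q ^ (2 * (m + r) + 1)) ^ 2) ≠ 0 := by
    rw [← pow_mul]
    exact sub_ne hq (by omega) (by omega)
  have hqa : 1 - q ^ (2 * m + 1) ≠ 0 := sub_ne hq (by omega) (by omega)
  have hqb : 1 - q ^ (2 * (m + 2 * r) + 1) ≠ 0 := sub_ne hq (by omega) (by omega)
  have hev1 : ev q m ≠ 0 := ev_ne_zero (fun i h1 h2 => hq i h1 (by omega))
  have hev3 : ev q (2 * (m + r)) ≠ 0 := ev_ne_zero (fun i h1 h2 => hq i h1 (by omega))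
  have ha0 : q ^ (2 * m + 1) ≠ 0 := pow_ne_zero _ hq0
  have e1 : q ^ (2 * m + 1) * q ^ (2 * (m + 2 * r) + 1) = (q ^ (2 * (m + r) + 1)) ^ 2 := by
    rw [← pow_add, ← pow_mul]
    congr 1
    ring
  have e3 : q ^ (2 * m + 1) - (q ^ (2 * (m + r) + 1)) ^ 2 =
      q ^ (2 * m + 1) * (1 - q ^ (2 * (m + 2 * r) + 1)) := by
    rw [mul_sub, e1, mul_one]
  have e4 : q ^ (2 * (m + 2 * r) + 1) = (q ^ (2 * (m + r) + 1)) ^ 2 / q ^ (2 * m + 1) := by
    rw [← e1]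
    field_simp
  have hqc : q ^ (2 * m + 1) - (q ^ (2 * (m + r) + 1)) ^ 2 ≠ 0 := by
    rw [e3]
    exact mul_ne_zero ha0 hqb
  have hB0 : ∏ j ∈ range m, (1 - (q ^ (2 * (m + r) + 1)) ^ 2 * q ^ (2 * j + 2)) ≠ 0 := by
    rw [prod_ne_zero_iff]
    intro j hj
    have hj' := mem_range.1 hj
    rw [← pow_mul, ← pow_add]
    exact sub_ne hq (by omega) (by omega)
  have hC0 : ∏ j ∈ range r, ((1 - (q ^ (2 * (m + r) + 1)) ^ 2 * q ^ (2 * (m + j) + 2)) *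
        (1 - (q ^ (2 * (m + r) + 1)) ^ 2 * q ^ (2 * (m + 2 * r - 1 - j) + 2))) ≠ 0 := by
    rw [prod_ne_zero_iff]
    intro j hj
    have hj' := mem_range.1 hj
    refine mul_ne_zero ?_ ?_
    · rw [← pow_mul, ← pow_add]
      exact sub_ne hq (by omega) (by omega)
    · rw [← pow_mul, ← pow_add]
      exact sub_ne hq (by omega) (by omega)
  have hD0 : ∏ j ∈ range r, ((1 - q ^ (2 * (m + j) + 2)) *
      (1 - q ^ (2 * (m + 2 * r - 1 - j) + 2))) ≠ 0 := by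
    rw [prod_ne_zero_iff]
    intro j hj
    have hj' := mem_range.1 hj
    exact mul_ne_zero (sub_ne hq (by omega) (by omega)) (sub_ne hq (by omega) (by omega))
  have hWq : (∏ j ∈ range r, (1 + (1 - (q ^ (2 * (m + r) + 1)) ^ 2) *
      (-(1 - (q ^ (2 * (m + r) + 1)) ^ 4) /
      ((1 - (q ^ (2 * (m + r) + 1)) ^ 2 * q ^ (2 * (m + j) + 2)) *
        (1 - (q ^ (2 * (m + r) + 1)) ^ 2 * q ^ (2 * (m + 2 * r - 1 - j) + 2)))))) =
      ((q ^ (2 * (m + r) + 1)) ^ 2) ^ r * (∏ j ∈ range r, ((1 - q ^ (2 * (m + j) + 2)) *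
      (1 - q ^ (2 * (m + 2 * r - 1 - j) + 2)))) /
      (∏ j ∈ range r, ((1 - (q ^ (2 * (m + r) + 1)) ^ 2 * q ^ (2 * (m + j) + 2)) *
        (1 - (q ^ (2 * (m + r) + 1)) ^ 2 * q ^ (2 * (m + 2 * r - 1 - j) + 2)))) := by
    have hcard : ((q ^ (2 * (m + r) + 1)) ^ 2) ^ r =
        ∏ _j ∈ range r, ((q ^ (2 * (m + r) + 1)) ^ 2) := by
      rw [prod_const, card_range]
    rw [hcard, ← prod_mul_distrib, ← prod_div_distrib]
    apply prod_congr rfl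
    intro j hj
    have hj' := mem_range.1 hj
    have hw1 : (1 - (q ^ (2 * (m + r) + 1)) ^ 2 * q ^ (2 * (m + j) + 2)) ≠ 0 := by
      rw [← pow_mul, ← pow_add]
      exact sub_ne hq (by omega) (by omega)
    have hw2 : (1 - (q ^ (2 * (m + r) + 1)) ^ 2 * q ^ (2 * (m + 2 * r - 1 - j) + 2)) ≠ 0 := by
      rw [← pow_mul, ← pow_add]
      exact sub_ne hq (by omega) (by omega)
    have hyz : q ^ (2 * (m + j) + 2) * q ^ (2 * (m + 2 * r - 1 - j) + 2) =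
        (q ^ (2 * (m + r) + 1)) ^ 2 := by
      rw [← pow_add, ← pow_mul]
      congr 1
      omega
    generalize q ^ (2 * (m + j) + 2) = y at *
    generalize q ^ (2 * (m + 2 * r - 1 - j) + 2) = z at *
    generalize q ^ (2 * (m + r) + 1) = Q at *
    rw [eq_div_iff (mul_ne_zero hw1 hw2)]
    field_simp
    linear_combination (Q ^ 2 * (Q ^ 2 - 1)) * hyz
  have hsum : (∑ i ∈ range r, ((q ^ (2 * (m + r) + 1)) ^ 2) ^ i) =
      (1 - ((q ^ (2 * (m + r) + 1)) ^ 2) ^ r) / (1 - (q ^ (2 * (m + r) + 1)) ^ 2) := by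
    rw [eq_div_iff hd2]
    have := geom_sum_mul ((q ^ (2 * (m + r) + 1)) ^ 2) r
    linear_combination -this
  rw [hWq, hsum]
  unfold TR
  have f1 : 2 * (m + r) + 1 - 1 - m = m + 2 * r := by omega
  have f2 : 2 * (m + r) + 1 - 1 - (m + 2 * r) = m := by omega
  have f3 : q ^ (2 * (m + 2 * r) * (m + 2 * r + 1)) =
      q ^ (2 * m * (m + 1)) * (((q ^ (2 * (m + r) + 1)) ^ 2) ^ r) ^ 2 := by
    rw [← pow_mul, ← pow_mul, ← pow_mul, ← pow_add]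
    congr 1
    ring
  have f4 : ev q (2 * (m + r) + 1 + (m + 2 * r)) = ev q (2 * (m + r)) *
      (1 - (q ^ (2 * (m + r) + 1)) ^ 2) *
      ((∏ j ∈ range m, (1 - (q ^ (2 * (m + r) + 1)) ^ 2 * q ^ (2 * j + 2))) *
      (∏ j ∈ range r, ((1 - (q ^ (2 * (m + r) + 1)) ^ 2 * q ^ (2 * (m + j) + 2)) *
        (1 - (q ^ (2 * (m + r) + 1)) ^ 2 * q ^ (2 * (m + 2 * r - 1 - j) + 2))))) := by
    rw [ev_big, prod_split (fun j => (1 - (q ^ (2 * (m + r) + 1)) ^ 2 * q ^ (2 * j + 2)))]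
  rw [od_gg, f1, f2, f3, f4, ev_big, ev_split q m r, e4]
  generalize ∏ j ∈ range r, ((1 - (q ^ (2 * (m + r) + 1)) ^ 2 * q ^ (2 * (m + j) + 2)) *
        (1 - (q ^ (2 * (m + r) + 1)) ^ 2 * q ^ (2 * (m + 2 * r - 1 - j) + 2))) = C at *
  generalize ∏ j ∈ range r, ((1 - q ^ (2 * (m + j) + 2)) *
      (1 - q ^ (2 * (m + 2 * r - 1 - j) + 2))) = E at *
  generalize ∏ j ∈ range m, (1 - (q ^ (2 * (m + r) + 1)) ^ 2 * q ^ (2 * j + 2)) = B at *
  generalize ((q ^ (2 * (m + r) + 1)) ^ 2) ^ r = P at *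
  generalize q ^ (2 * (m + r) + 1) = Q at *
  generalize q ^ (2 * m + 1) = a at *
  generalize ev q m = em at *
  generalize ev q (2 * (m + r)) = es at *
  generalize gg q (m + r) = g at *
  generalize q ^ (2 * m * (m + 1)) = p at *
  have h1 : 1 - Q ^ 2 / a = (a - Q ^ 2) / a := by field_simp
  have h2 : 1 + Q ^ 2 / a = (a + Q ^ 2) / a := by field_simp
  rw [h1, h2]
  field_simp
  ring

theorem t_RR : S_RR := by
  intro s ζ hζ hs
  have h1 := midR s ζ hζ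
  have h2 : Tendsto (fun q : ℂ => ∑ m ∈ range s,
      (TR q (2 * s + 1) m + TR q (2 * s + 1) (2 * s - m)) / (1 - q ^ (2 * s + 1)) ^ 2) (𝓝[≠] ζ)
      (𝓝 (∑ m ∈ range s, (-1) ^ m * ζ ^ (m * (m + 1)) *
        (((s : ℂ) - m) * (1 + ζ ^ (2 * m + 1)) / (1 - ζ ^ (2 * m + 1))
          - 2 * ζ ^ (2 * m + 1) / (1 - ζ ^ (2 * m + 1)) ^ 2))) := by
    apply tendsto_finsetSum
    intro m hm
    have hm' := mem_range.1 hm
    obtain ⟨r, rfl⟩ : ∃ r, s = m + r := ⟨s - m, by omega⟩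
    have := pairR m r (by omega) ζ hζ
    have e : 2 * (m + r) - m = m + 2 * r := by omega
    rw [e]
    have e2 : (((m + r : ℕ) : ℂ) - m) = r := by
      push_cast
      ring
    rw [e2]
    exact this
  have h3 := h1.add h2
  have hv : rho s ζ = 2 * ((-1) ^ s * ζ ^ (s * (s + 1))) *
        ∑ j ∈ range s, ζ ^ (2 * j + 2) / (1 - ζ ^ (2 * j + 2)) ^ 2 +
      ∑ m ∈ range s, (-1) ^ m * ζ ^ (m * (m + 1)) *
        (((s : ℂ) - m) * (1 + ζ ^ (2 * m + 1)) / (1 - ζ ^ (2 * m + 1))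
          - 2 * ζ ^ (2 * m + 1) / (1 - ζ ^ (2 * m + 1)) ^ 2) := rfl
  rw [hv]
  refine h3.congr ?_
  intro q
  rw [sum_mid (fun m => TR q (2 * s + 1) m), ← sum_div]
  ring

end Pool.Agent.R600.QC
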