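import Pool.Agent.R600.QC.Defs

open Finset

namespace Pool.Agent.R600.QC

section AG
variable {b : ℂ}

lemma geo (hb : b ≠ 1) (N : ℕ) : ∑ k ∈ range N, b ^ k = (1 - b ^ N) / (1 - b) := by
  have h : 1 - b ≠ 0 := sub_ne_zero.2 hb.symm
  induction N with
  | zero => simp
  | succ N ih => rw [sum_range_succ, ih]; field_simp; ring

lemma ag (hb : b ≠ 1) (N : ℕ) :
    ∑ k ∈ range N, (k : ℂ) * b ^ k = b * (1 - b ^ N) / (1 - b) ^ 2 - N * b ^ N / (1 - b) := by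
  have h : 1 - b ≠ 0 := sub_ne_zero.2 hb.symm
  induction N with
  | zero => simp
  | succ N ih => rw [sum_range_succ, ih]; push_cast; field_simp; ring

lemma sum_lt {M n : ℕ} (h : M ≤ n) (f : ℕ → ℂ) :
    ∑ k ∈ range n, (if k < M then f k else 0) = ∑ k ∈ range M, f k := by
  rw [← sum_filter]
  congr 1
  ext k
  simp only [mem_filter, mem_range]
  omega

lemma locsum (hb : b ≠ 1) (n M r : ℕ) (hbn : b ^ n = 1) (h : 2 * M + 2 * r = n + 1)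
    (hM : 1 ≤ M) (hMn : M ≤ n) :
    ∑ k ∈ range n, (if k = 0 then 0 else if k < M then (k : ℂ) + r else (n : ℂ) - k - r) * b ^ k
      = 2 * b / (1 - b) ^ 2 + r * (1 + b) / (1 - b) - b ^ M * (1 + b) / (1 - b) ^ 2 := by
  have h1 : 1 - b ≠ 0 := sub_ne_zero.2 hb.symm
  have e : ∀ k ∈ range n, (if k = 0 then 0 else if k < M then (k : ℂ) + r else (n : ℂ) - k - r)
      * b ^ k = (((n : ℂ) - r) * b ^ k - k * b ^ k) +
        (if k < M then (2 * ((k : ℂ) * b ^ k) + (2 * r - n) * b ^ k) else 0)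
        - (if k < 1 then (r : ℂ) else 0) := by
    intro k _
    by_cases hk : k = 0
    · subst hk
      simp
      rw [if_pos (by omega)]
      ring
    · rw [if_neg hk, if_neg (show ¬ k < 1 by omega)]
      split_ifs <;> ring
  rw [sum_congr rfl e, sum_sub_distrib, sum_add_distrib, sum_sub_distrib, ← mul_sum,
    sum_lt hMn, sum_lt (le_trans hM hMn), sum_add_distrib, ← mul_sum, ← mul_sum, geo hb, geo hb,
    ag hb, ag hb, hbn]
  have hn : (n : ℂ) = 2 * M + 2 * r - 1 := by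
    have : ((2 * M + 2 * r : ℕ) : ℂ) = ((n + 1 : ℕ) : ℂ) := by rw [h]
    push_cast at this
    linear_combination -this
  rw [hn]
  simp only [sum_range_one]
  field_simp
  ring

end AG

section comb

/-- integer coefficient -/
def hI (n r v : ℤ) : ℤ :=
  if (v - r) % 2 = 0 then (if v = r then 0 else if r < v then (v + r) / 2 else -((v + r) / 2))
  else (if 0 ≤ v + r then (n - (v + r)) / 2 else (n + (v + r)) / 2)

def sg (r : ℤ) : ℤ := if r % 2 = 0 then 1 else -1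

lemma sg_hI (n r v : ℤ) (hn : n % 2 = 1) : sg v * hI n v r = - (sg r * hI n r v) := by
  unfold sg hI
  split_ifs <;> omega

lemma hI_neg (n r v : ℤ) (hn : n % 2 = 1) : hI n (-r) (-v) = hI n r v := by
  unfold hI
  split_ifs <;> omega

/-- `H(r)` -/
noncomputable def HH (s : ℕ) (ζ : ℂ) (r : ℤ) : ℂ :=
  ∑ v ∈ Icc (-(s : ℤ)) s, (hI (2 * s + 1) r v : ℂ) * ζ ^ (r * v)

lemma sumIcc (f : ℤ → ℂ) (s : ℕ) : ∑ r ∈ Icc (-(s : ℤ)) s, f r =
    f 0 + ∑ j ∈ range s, (f ((j : ℤ) + 1) + f (-((j : ℤ) + 1))) := by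
  induction s with
  | zero => simp
  | succ s ih =>
    have : Icc (-((s + 1 : ℕ) : ℤ)) ((s + 1 : ℕ) : ℤ) =
        insert ((s : ℤ) + 1) (insert (-((s : ℤ) + 1)) (Icc (-(s : ℤ)) s)) := by
      ext x
      simp only [mem_insert, mem_Icc]
      push_cast
      omega
    rw [this, sum_insert (by simp; omega), sum_insert (by simp), ih, sum_range_succ]
    ring

lemma HH_neg (s : ℕ) (ζ : ℂ) (r : ℤ) : HH s ζ (-r) = HH s ζ r := by
  unfold HH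
  refine sum_nbij' (fun v => -v) (fun v => -v) ?_ ?_ ?_ ?_ ?_
  · intro v hv; simp only [mem_Icc] at hv ⊢; omega
  · intro v hv; simp only [mem_Icc] at hv ⊢; omega
  · intro v _; simp
  · intro v _; simp
  · intro v _
    have : hI (2 * s + 1) (-r) v = hI (2 * s + 1) r (-v) := by
      have := hI_neg (2 * s + 1) r (-v) (by omega)
      rw [neg_neg] at this
      exact this
    rw [this]
    congr 2
    ring

lemma HH_anti (s : ℕ) (ζ : ℂ) : ∑ r ∈ Icc (-(s : ℤ)) s, (sg r : ℂ) * HH s ζ r = 0 := by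
  have h1 : ∑ r ∈ Icc (-(s : ℤ)) s, (sg r : ℂ) * HH s ζ r =
      ∑ r ∈ Icc (-(s : ℤ)) s, ∑ v ∈ Icc (-(s : ℤ)) s,
        ((sg r * hI (2 * s + 1) r v : ℤ) : ℂ) * ζ ^ (r * v) := by
    refine sum_congr rfl fun r _ => ?_
    rw [HH, mul_sum]
    refine sum_congr rfl fun v _ => ?_
    push_cast
    ring
  have h3 : ∑ r ∈ Icc (-(s : ℤ)) s, ∑ v ∈ Icc (-(s : ℤ)) s,
        ((sg r * hI (2 * s + 1) r v : ℤ) : ℂ) * ζ ^ (r * v) =
      ∑ r ∈ Icc (-(s : ℤ)) s, ∑ v ∈ Icc (-(s : ℤ)) s,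
        ((sg v * hI (2 * s + 1) v r : ℤ) : ℂ) * ζ ^ (v * r) := sum_comm
  have h4 : ∑ r ∈ Icc (-(s : ℤ)) s, ∑ v ∈ Icc (-(s : ℤ)) s,
        ((sg v * hI (2 * s + 1) v r : ℤ) : ℂ) * ζ ^ (v * r) =
      - ∑ r ∈ Icc (-(s : ℤ)) s, ∑ v ∈ Icc (-(s : ℤ)) s,
        ((sg r * hI (2 * s + 1) r v : ℤ) : ℂ) * ζ ^ (r * v) := by
    rw [← sum_neg_distrib]
    refine sum_congr rfl fun r _ => ?_
    rw [← sum_neg_distrib]
    refine sum_congr rfl fun v _ => ?_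
    rw [sg_hI (2 * s + 1) r v (by omega), mul_comm v r]
    push_cast
    ring
  have h2 : ∑ r ∈ Icc (-(s : ℤ)) s, (sg r : ℂ) * HH s ζ r =
      - ∑ r ∈ Icc (-(s : ℤ)) s, (sg r : ℂ) * HH s ζ r := by
    calc _ = _ := h1
      _ = _ := h3
      _ = _ := h4
      _ = _ := by rw [h1]
  exact self_eq_neg.1 h2

lemma H0sum (n : ℤ) (t : ℕ) :
    ∑ j ∈ range (2 * t), (if ((j : ℤ) + 1) % 2 = 0 then ((j : ℤ) + 1) else n - ((j : ℤ) + 1))
      = (n + 1) * t := by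
  induction t with
  | zero => simp
  | succ t ih =>
    rw [show 2 * (t + 1) = 2 * t + 1 + 1 by ring, sum_range_succ, sum_range_succ, ih,
      if_neg (by push_cast; omega), if_pos (by push_cast; omega)]
    push_cast
    ring

lemma H0sum' (s : ℕ) :
    ∑ j ∈ range s, (if ((j : ℤ) + 1) % 2 = 0 then ((j : ℤ) + 1)
      else (2 * s + 1) - ((j : ℤ) + 1)) = (s : ℤ) * (s + 1) := by
  rcases Nat.even_or_odd' s with ⟨t, rfl | rfl⟩
  · rw [H0sum]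
    push_cast
    ring
  · rw [sum_range_succ, H0sum, if_neg (by push_cast; omega)]
    push_cast
    ring

lemma HH_zero (s : ℕ) (ζ : ℂ) : HH s ζ 0 = (s : ℂ) * (s + 1) := by
  unfold HH
  rw [sumIcc]
  have : ∀ j ∈ range s, ((hI (2 * s + 1) 0 ((j : ℤ) + 1) : ℂ) * ζ ^ ((0 : ℤ) * ((j : ℤ) + 1)) +
      (hI (2 * s + 1) 0 (-((j : ℤ) + 1)) : ℂ) * ζ ^ ((0 : ℤ) * (-((j : ℤ) + 1)))) =
      (((if ((j : ℤ) + 1) % 2 = 0 then ((j : ℤ) + 1)
      else (2 * s + 1) - ((j : ℤ) + 1)) : ℤ) : ℂ) := by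
    intro j hj
    have e : hI (2 * s + 1) 0 ((j : ℤ) + 1) + hI (2 * s + 1) 0 (-((j : ℤ) + 1)) =
      (if ((j : ℤ) + 1) % 2 = 0 then ((j : ℤ) + 1) else (2 * s + 1) - ((j : ℤ) + 1)) := by
      unfold hI
      split_ifs <;> omega
    rw [← e]
    push_cast
    simp
  rw [sum_congr rfl this, ← Int.cast_sum, H0sum']
  simp [hI]

end comb


section main

variable {s : ℕ} {ζ : ℂ}

lemma zper (hζ : IsPrimitiveRoot ζ (2 * s + 1)) (k t : ℤ) :
    ζ ^ (k + (2 * s + 1) * t) = ζ ^ k := by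
  have h0 : ζ ≠ 0 := hζ.ne_zero (by omega)
  rw [zpow_add₀ h0, zpow_mul]
  have : ζ ^ (2 * (s : ℤ) + 1) = 1 := by
    have := hζ.pow_eq_one
    exact_mod_cast this
  rw [this, one_zpow, mul_one]

/-- equality of powers from a congruence -/
lemma zeq (hζ : IsPrimitiveRoot ζ (2 * s + 1)) {k l : ℤ} (t : ℤ) (h : k = l + (2 * s + 1) * t) :
    ζ ^ k = ζ ^ l := by rw [h, zper hζ]

lemma bne (hζ : IsPrimitiveRoot ζ (2 * s + 1)) {r : ℕ} (h1 : 1 ≤ r) (h2 : r ≤ 2 * s) :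
    ζ ^ (2 * r) ≠ 1 := by
  intro h
  have := (hζ.pow_eq_one_iff_dvd _).1 h
  have h3 : (2 * s + 1) ∣ r := by
    refine Nat.Coprime.dvd_of_dvd_mul_left ?_ this
    rw [Nat.coprime_comm, Nat.coprime_two_left]
    exact ⟨s, rfl⟩
  have := Nat.le_of_dvd (by omega) h3
  omega

/-- the local identity -/
lemma HH_loc (hζ : IsPrimitiveRoot ζ (2 * s + 1)) {r : ℕ} (h1 : 1 ≤ r) (h2 : r ≤ s) :
    HH s ζ r = ζ ^ ((r : ℤ) * r) * (2 * ζ ^ (2 * r) / (1 - ζ ^ (2 * r)) ^ 2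
      + r * (1 + ζ ^ (2 * r)) / (1 - ζ ^ (2 * r))
      - ζ ^ ((r : ℤ) - 2 * (r * r)) * (1 + ζ ^ (2 * r)) / (1 - ζ ^ (2 * r)) ^ 2) := by
  have h0 : ζ ≠ 0 := hζ.ne_zero (by omega)
  have hb := bne hζ h1 (by omega : r ≤ 2 * s)
  have hbn : (ζ ^ (2 * r)) ^ (2 * s + 1) = 1 := by
    rw [← pow_mul, mul_comm, pow_mul, hζ.pow_eq_one, one_pow]
  have hl := locsum hb (2 * s + 1) (s + 1 - r) r hbn (by omega) (by omega) (by omega)
  have hB : (ζ ^ (2 * r)) ^ (s + 1 - r) = ζ ^ ((r : ℤ) - 2 * (r * r)) := by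
    rw [← pow_mul, ← zpow_natCast]
    refine zeq hζ r ?_
    push_cast [show r ≤ s + 1 by omega]
    ring
  rw [hB] at hl
  rw [← hl, mul_sum]
  unfold HH
  symm
  refine sum_nbij' (fun k : ℕ => if (r : ℤ) + 2 * k ≤ s then (r : ℤ) + 2 * k
      else if (r : ℤ) + 2 * k ≤ 3 * s + 1 then (r : ℤ) + 2 * k - (2 * s + 1)
      else (r : ℤ) + 2 * k - 2 * (2 * s + 1))
    (fun v : ℤ => (if (v - r) % 2 = 0 then (if (r : ℤ) ≤ v then (v - r) / 2
      else (v - r) / 2 + (2 * s + 1)) else (v - r + (2 * s + 1)) / 2).toNat) ?_ ?_ ?_ ?_ ?_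
  · intro k hk
    simp only [mem_range, mem_Icc] at hk ⊢
    split_ifs <;> omega
  · intro v hv
    simp only [mem_range, mem_Icc] at hv ⊢
    split_ifs <;> omega
  · intro k hk
    simp only [mem_range] at hk ⊢
    split_ifs <;> omega
  · intro v hv
    simp only [mem_Icc] at hv ⊢
    split_ifs <;> omega
  · intro k hk
    simp only [mem_range] at hk ⊢
    have hint : hI (2 * s + 1) r (if (r : ℤ) + 2 * k ≤ s then (r : ℤ) + 2 * k
      else if (r : ℤ) + 2 * k ≤ 3 * s + 1 then (r : ℤ) + 2 * k - (2 * s + 1)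
      else (r : ℤ) + 2 * k - 2 * (2 * s + 1)) =
        if k = 0 then 0 else if k < s + 1 - r then (k : ℤ) + r else (2 * s + 1) - k - r := by
      unfold hI
      split_ifs <;> omega
    rw [hint]
    have hz : ζ ^ ((r : ℤ) * (if (r : ℤ) + 2 * k ≤ s then (r : ℤ) + 2 * k
      else if (r : ℤ) + 2 * k ≤ 3 * s + 1 then (r : ℤ) + 2 * k - (2 * s + 1)
      else (r : ℤ) + 2 * k - 2 * (2 * s + 1))) = ζ ^ ((r : ℤ) * r) * (ζ ^ (2 * r)) ^ k := by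
      have e1 : (ζ ^ (2 * r)) ^ k = ζ ^ ((2 * r * k : ℤ)) := by
        rw [← pow_mul, ← zpow_natCast]
        push_cast
        rfl
      rw [e1, ← zpow_add₀ h0]
      split_ifs
      · congr 1; ring
      · exact zeq hζ (-r) (by ring)
      · exact zeq hζ (-2 * r) (by ring)
    rw [hz]
    split_ifs <;> push_cast <;> ring

/-- the sum of `(-1)^r H(r)` -/
lemma HH_sum (s : ℕ) (ζ : ℂ) :
    2 * ∑ j ∈ range s, (-1 : ℂ) ^ (j + 1) * HH s ζ ((j + 1 : ℕ) : ℤ) = -((s : ℂ) * (s + 1)) := by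
  have h := HH_anti s ζ
  rw [sumIcc, HH_zero] at h
  have e : ∀ j ∈ range s, ((sg ((j : ℤ) + 1) : ℂ) * HH s ζ ((j : ℤ) + 1) +
      (sg (-((j : ℤ) + 1)) : ℂ) * HH s ζ (-((j : ℤ) + 1))) =
      2 * ((-1 : ℂ) ^ (j + 1) * HH s ζ ((j + 1 : ℕ) : ℤ)) := by
    intro j _
    rw [HH_neg]
    have h1 : sg (-((j : ℤ) + 1)) = sg ((j : ℤ) + 1) := by
      unfold sg
      split_ifs <;> omega
    have h2 : ((sg ((j : ℤ) + 1) : ℤ) : ℂ) = (-1 : ℂ) ^ (j + 1) := by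
      unfold sg
      split_ifs with hj
      · rw [Even.neg_one_pow]
        · simp
        · rw [Nat.even_iff]; omega
      · rw [Odd.neg_one_pow]
        · simp
        · rw [Nat.odd_iff]; omega
    rw [h1, h2]
    push_cast
    ring
  rw [sum_congr rfl e, ← mul_sum] at h
  have h5 : ((sg 0 : ℤ) : ℂ) = 1 := by simp [sg]
  rw [h5] at h
  linear_combination h

lemma sumk (n : ℕ) : ∑ k ∈ range n, (k : ℂ) * (n - k) = n * ((n : ℂ) ^ 2 - 1) / 6 := by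
  have h1 : ∀ m : ℕ, ∑ k ∈ range m, (k : ℂ) = m * (m - 1) / 2 := by
    intro m
    induction m with
    | zero => simp
    | succ m ih => rw [sum_range_succ, ih]; push_cast; ring
  have h2 : ∀ m : ℕ, ∑ k ∈ range m, (k : ℂ) ^ 2 = m * (m - 1) * (2 * m - 1) / 6 := by
    intro m
    induction m with
    | zero => simp
    | succ m ih => rw [sum_range_succ, ih]; push_cast; ring
  have : ∀ k ∈ range n, (k : ℂ) * (n - k) = n * k - (k : ℂ) ^ 2 := fun k _ => by ring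
  rw [sum_congr rfl this, sum_sub_distrib, ← mul_sum, h1, h2]
  ring

lemma quad {b : ℂ} (hb : b ≠ 1) (n : ℕ) (hbn : b ^ n = 1) :
    ∑ k ∈ range n, ((k : ℂ) * (n - k)) * b ^ k = 2 * n * b / (1 - b) ^ 2 := by
  have h : 1 - b ≠ 0 := sub_ne_zero.2 hb.symm
  have gen : ∀ N : ℕ, ∑ k ∈ range N, ((k : ℂ) * (n - k)) * b ^ k =
      ((n - 1) * b - (n + 1) * b ^ 2) / (1 - b) ^ 3
      + b ^ N * ((N : ℂ) ^ 2 * (1 - b) ^ 2 - n * N * (1 - b) ^ 2 + 2 * N * b * (1 - b)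
        - n * b * (1 - b) + b * (1 + b)) / (1 - b) ^ 3 := by
    intro N
    induction N with
    | zero => simp; field_simp; ring
    | succ N ih => rw [sum_range_succ, ih]; push_cast; field_simp; ring
  rw [gen n, hbn]
  field_simp
  ring

lemma Ysum (hζ : IsPrimitiveRoot ζ (2 * s + 1)) :
    ∑ j ∈ range s, ζ ^ (2 * j + 2) / (1 - ζ ^ (2 * j + 2)) ^ 2 = -((s : ℂ) * (s + 1)) / 6 := by
  have h0 : ζ ≠ 0 := hζ.ne_zero (by omega)
  set f : ℕ → ℂ := fun r => ζ ^ (2 * r) / (1 - ζ ^ (2 * r)) ^ 2 with hf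
  -- full sum
  have full : ∑ j ∈ range (2 * s), f (j + 1) = 2 * ∑ j ∈ range s, f (j + 1) := by
    have e : ∑ j ∈ range (2 * s), f (j + 1) = ∑ j ∈ range s, f (j + 1) +
        ∑ j ∈ range s, f (s + j + 1) := by
      rw [two_mul, sum_range_add]
    rw [e, two_mul]
    congr 1
    rw [← sum_range_reflect]
    refine sum_congr rfl fun j hj => ?_
    rw [mem_range] at hj
    have hb := bne hζ (by omega : 1 ≤ j + 1) (by omega : j + 1 ≤ 2 * s)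
    have hbz : ζ ^ (2 * (j + 1)) ≠ 0 := pow_ne_zero _ h0
    have e1 : ζ ^ (2 * (s + (s - 1 - j) + 1)) = (ζ ^ (2 * (j + 1)))⁻¹ := by
      refine eq_inv_of_mul_eq_one_left ?_
      rw [← pow_add, hζ.pow_eq_one_iff_dvd]
      exact ⟨2, by omega⟩
    simp only [hf]
    rw [e1]
    have h3 : 1 - ζ ^ (2 * (j + 1)) ≠ 0 := sub_ne_zero.2 hb.symm
    have h4 : 1 - (ζ ^ (2 * (j + 1)))⁻¹ ≠ 0 := by
      rw [sub_ne_zero]
      intro h
      exact hb (by rw [← inv_inv (ζ ^ (2 * (j + 1))), ← h, inv_one])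
    generalize ζ ^ (2 * (j + 1)) = b at *
    have h5 : 1 - b⁻¹ = -(1 - b) / b := by field_simp; ring
    rw [h5]
    field_simp
  have main : 2 * ((2 * s + 1 : ℕ) : ℂ) * ∑ j ∈ range (2 * s), f (j + 1) =
      - (((2 * s + 1 : ℕ) : ℂ) * (((2 * s + 1 : ℕ) : ℂ) ^ 2 - 1) / 6) := by
    have e1 : ∀ j ∈ range (2 * s), 2 * ((2 * s + 1 : ℕ) : ℂ) * f (j + 1) =
        ∑ k ∈ range (2 * s + 1), ((k : ℂ) * ((2 * s + 1 : ℕ) - k)) * (ζ ^ (2 * (j + 1))) ^ k := by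
      intro j hj
      rw [mem_range] at hj
      rw [quad (bne hζ (by omega : 1 ≤ j + 1) (by omega : j + 1 ≤ 2 * s))]
      · simp only [hf]; ring
      · rw [← pow_mul, mul_comm, pow_mul, hζ.pow_eq_one, one_pow]
    rw [mul_sum, sum_congr rfl e1, sum_comm, ← sumk, ← sum_neg_distrib]
    refine sum_congr rfl fun k hk => ?_
    rw [← mul_sum]
    rcases Nat.eq_zero_or_pos k with rfl | hk0
    · simp
    rw [mem_range] at hk
    have hb := bne hζ (by omega : 1 ≤ k) (by omega : k ≤ 2 * s)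
    have h6 : ∑ j ∈ range (2 * s + 1), (ζ ^ (2 * k)) ^ j = 0 := by
      rw [geo hb, ← pow_mul, mul_comm, pow_mul, hζ.pow_eq_one, one_pow]
      simp
    rw [sum_range_succ'] at h6
    have h7 : ∑ j ∈ range (2 * s), (ζ ^ (2 * (j + 1))) ^ k =
        ∑ j ∈ range (2 * s), (ζ ^ (2 * k)) ^ (j + 1) := by
      refine sum_congr rfl fun j _ => ?_
      rw [← pow_mul, ← pow_mul]
      congr 1
      ring
    rw [h7]
    rw [pow_zero] at h6
    linear_combination ((k : ℂ) * ((2 * s + 1 : ℕ) - k)) * h6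
  have hn : ((2 * s + 1 : ℕ) : ℂ) ≠ 0 := Nat.cast_ne_zero.2 (by omega)
  rw [full] at main
  have e2 : ∑ j ∈ range s, ζ ^ (2 * j + 2) / (1 - ζ ^ (2 * j + 2)) ^ 2 =
      ∑ j ∈ range s, f (j + 1) := rfl
  rw [e2]
  have h8 : 4 * ((2 * s + 1 : ℕ) : ℂ) * (∑ j ∈ range s, f (j + 1) + ((s : ℂ) * (s + 1)) / 6) = 0 := by
    push_cast at main ⊢
    linear_combination main
  have h9 := (mul_eq_zero.1 h8).resolve_left (mul_ne_zero (by norm_num) hn)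
  linear_combination h9

/-- QC-4 -/
theorem t_SP : S_SP := by
  intro s ζ hζ hs
  have h0 : ζ ≠ 0 := hζ.ne_zero (by omega)
  unfold lam rho
  rw [Ysum hζ]
  -- reindex
  rw [← sum_range_reflect (fun m => (-1 : ℂ) ^ m * (ζ ^ (m * m))⁻¹ * (1 + ζ ^ (2 * m + 1)) /
        (1 - ζ ^ (2 * m + 1)) ^ 2), ← sum_range_reflect (fun m => (-1 : ℂ) ^ m * ζ ^ (m * (m + 1)) *
        (((s : ℂ) - m) * (1 + ζ ^ (2 * m + 1)) / (1 - ζ ^ (2 * m + 1))
          - 2 * ζ ^ (2 * m + 1) / (1 - ζ ^ (2 * m + 1)) ^ 2))]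
  have key : ∀ j ∈ range s,
      (-1 : ℂ) ^ (s - 1 - j) * ζ ^ ((s - 1 - j) * ((s - 1 - j) + 1)) *
        (((s : ℂ) - ((s - 1 - j : ℕ) : ℂ)) * (1 + ζ ^ (2 * (s - 1 - j) + 1)) /
          (1 - ζ ^ (2 * (s - 1 - j) + 1))
          - 2 * ζ ^ (2 * (s - 1 - j) + 1) / (1 - ζ ^ (2 * (s - 1 - j) + 1)) ^ 2)
      + (-1 : ℂ) ^ (s - 1 - j) * (ζ ^ ((s - 1 - j) * (s - 1 - j)))⁻¹ *
        (1 + ζ ^ (2 * (s - 1 - j) + 1)) / (1 - ζ ^ (2 * (s - 1 - j) + 1)) ^ 2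
      = (-1) ^ s * ζ ^ (s * (s + 1)) * (- ((-1 : ℂ) ^ (j + 1) * HH s ζ ((j + 1 : ℕ) : ℤ))) := by
    intro j hj
    rw [mem_range] at hj
    obtain ⟨r, hr⟩ : ∃ r, r = j + 1 := ⟨_, rfl⟩
    obtain ⟨m, hm⟩ : ∃ m, m = s - 1 - j := ⟨_, rfl⟩
    have hsr : s = m + r := by omega
    rw [← hm, ← hr, HH_loc hζ (by omega : 1 ≤ r) (by omega : r ≤ s)]
    have hb := bne hζ (by omega : 1 ≤ r) (by omega : r ≤ 2 * s)
    have hbz : ζ ^ (2 * r) ≠ 0 := pow_ne_zero _ h0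
    have ea : ζ ^ (2 * m + 1) = (ζ ^ (2 * r))⁻¹ := by
      refine eq_inv_of_mul_eq_one_left ?_
      rw [← pow_add, hζ.pow_eq_one_iff_dvd]
      exact ⟨1, by omega⟩
    have eb : ζ ^ (m * (m + 1)) = ζ ^ (s * (s + 1)) * ζ ^ ((r : ℤ) * r) := by
      rw [← zpow_natCast, ← zpow_natCast, ← zpow_add₀ h0]
      refine zeq hζ (-r) ?_
      rw [hsr]
      push_cast
      ring
    have ec : (ζ ^ (m * m))⁻¹ * ζ ^ (2 * r) =
        ζ ^ (s * (s + 1)) * (ζ ^ ((r : ℤ) * r) * ζ ^ ((r : ℤ) - 2 * (r * r))) := by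
      rw [← zpow_natCast, ← zpow_natCast, ← zpow_natCast, ← zpow_neg, ← zpow_add₀ h0,
        ← zpow_add₀ h0, ← zpow_add₀ h0]
      refine zeq hζ (r - s) ?_
      rw [hsr]
      push_cast
      ring
    have es : ((-1 : ℂ)) ^ m = (-1) ^ s * (-1) ^ r := by
      rw [hsr, pow_add, mul_assoc, ← mul_pow]
      simp
    have esm : (s : ℂ) - m = r := by rw [hsr]; push_cast; ring
    rw [ea, eb, es, esm]
    have h3 : 1 - ζ ^ (2 * r) ≠ 0 := sub_ne_zero.2 hb.symm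
    have h5 : 1 - (ζ ^ (2 * r))⁻¹ = -(1 - ζ ^ (2 * r)) / ζ ^ (2 * r) := by field_simp; ring
    have h6 : (1 + (ζ ^ (2 * r))⁻¹) / (1 - (ζ ^ (2 * r))⁻¹) ^ 2 =
        ζ ^ (2 * r) * (1 + ζ ^ (2 * r)) / (1 - ζ ^ (2 * r)) ^ 2 := by
      rw [h5]; field_simp; ring
    have h7 : (1 + (ζ ^ (2 * r))⁻¹) / (1 - (ζ ^ (2 * r))⁻¹) =
        - ((1 + ζ ^ (2 * r)) / (1 - ζ ^ (2 * r))) := by
      rw [h5]; field_simp; ring
    have h8 : (ζ ^ (2 * r))⁻¹ / (1 - (ζ ^ (2 * r))⁻¹) ^ 2 =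
        ζ ^ (2 * r) / (1 - ζ ^ (2 * r)) ^ 2 := by
      rw [h5]; field_simp
    have e1 : (-1) ^ s * (-1) ^ r * (ζ ^ (m * m))⁻¹ * (1 + (ζ ^ (2 * r))⁻¹) /
        (1 - (ζ ^ (2 * r))⁻¹) ^ 2 = (-1) ^ s * (-1) ^ r * (ζ ^ (s * (s + 1)) *
          (ζ ^ ((r : ℤ) * r) * ζ ^ ((r : ℤ) - 2 * (r * r)))) *
          (1 + ζ ^ (2 * r)) / (1 - ζ ^ (2 * r)) ^ 2 := by
      rw [mul_div_assoc, h6, ← ec]
      ring
    rw [e1, mul_div_assoc ((r : ℂ)), h7, mul_div_assoc (2 : ℂ), h8]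
    ring
  have hsum := sum_congr rfl key
  rw [sum_add_distrib, ← mul_sum, sum_neg_distrib] at hsum
  have hH := HH_sum s ζ
  linear_combination -hsum + ((-1) ^ s * ζ ^ (s * (s + 1))) / 2 * hH

end main

end Pool.Agent.R600.QC
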